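import Pool.Agent.Y62.CP.Up

/-!
# Balls without a relatively open subset of the bounding sphere: upper bounds
-/

set_option autoImplicit false

open Set Topology Metric

namespace Pool.Agent.Y62.CP

open Pool.Agent.Results.MP_3364cd_gt.CmpCubeOpenFace

section Local

variable {E : Type} [PseudoMetricSpace E]

/-- A partition at a point at which the space is locally compact. -/
lemma step_loc {Y : Set E} {q : E} {η₀ : ℝ} (hη₀ : 0 < η₀) (hc : IsCompact (Y ∩ closedBall q η₀))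
    {G : Set E} (hG : IsClosed G) (hq : q ∉ G) (k : ℕ) :
    ∃ U V : Set E, IsOpen U ∧ IsOpen V ∧ U ∩ V ∩ Y = ∅ ∧ q ∈ U ∧ G ∩ Y ⊆ V ∧
      PCmp k (Y \ (U ∪ V)) := by
  obtain ⟨η, hη, h⟩ := exists_closedBall_disjoint hG hq
  have hη' : 0 < min η η₀ := lt_min hη hη₀
  refine ⟨ball q (min η η₀), (closedBall q (min η η₀))ᶜ, isOpen_ball,
    isClosed_closedBall.isOpen_compl, ?_, mem_ball_self hη', ?_, ?_⟩
  · ext y
    simp only [mem_inter_iff, mem_empty_iff_false, iff_false, not_and]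
    rintro ⟨hy1, hy2⟩
    exact absurd (ball_subset_closedBall hy1) hy2
  · rintro z ⟨hz, -⟩
    rw [mem_compl_iff, mem_closedBall, not_le]
    exact (min_le_left _ _).trans_lt (h z hz)
  · apply PCmp.of_isCompact
    have e : Y \ (ball q (min η η₀) ∪ (closedBall q (min η η₀))ᶜ) =
        (Y ∩ closedBall q η₀) ∩ (ball q (min η η₀) ∪ (closedBall q (min η η₀))ᶜ)ᶜ := by
      ext y
      simp only [mem_sdiff, mem_union, mem_inter_iff, mem_compl_iff, not_or, not_not, mem_ball,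
        mem_closedBall]
      constructor
      · rintro ⟨h1, h2, h3⟩
        exact ⟨⟨h1, h3.trans (min_le_right _ _)⟩, h2, h3⟩
      · rintro ⟨⟨h1, -⟩, h2, h3⟩
        exact ⟨h1, h2, h3⟩
    rw [e]
    exact hc.inter_right (isOpen_ball.union isClosed_closedBall.isOpen_compl).isClosed_compl

/-- Locally compact sets. -/
lemma pcmp_one {Y : Set E} (h : ∀ q ∈ Y, ∃ η : ℝ, 0 < η ∧ IsCompact (Y ∩ closedBall q η)) :
    PCmp 1 Y := by
  intro q hq G hG hqG
  obtain ⟨η, hη, hc⟩ := h q hq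
  exact step_loc hη hc hG hqG 0

end Local

/-- Invariance under embeddings. -/
lemma pcmp_image {E E' : Type} [TopologicalSpace E] [TopologicalSpace E'] {X : Set E} {f : E → E'}
    (hf : IsEmbedding (fun x : X => f x)) (k : ℕ) : PCmp k (f '' X) ↔ PCmp k X := by
  have h1 := cmpLE_iff k hf
  have h2 := cmpLE_iff k (IsEmbedding.subtypeVal (p := fun x => x ∈ X))
  have e1 : range (fun x : X => f x) = f '' X := by
    ext y
    simp
  have e2 : range (Subtype.val : {x // x ∈ X} → E) = X := Subtype.range_coe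
  rw [e1] at h1
  rw [e2] at h2
  exact h1.symm.trans h2

section BallSec

variable {m : ℕ}

/-- The closed unit ball without the part of the unit sphere in `O`. -/
def X (m : ℕ) (O : Set (Fin (m + 1) → ℝ)) : Set (Fin (m + 1) → ℝ) :=
  closedBall 0 1 \ (sphere 0 1 ∩ O)

lemma mem_X {O : Set (Fin (m + 1) → ℝ)} {x : Fin (m + 1) → ℝ} :
    x ∈ X m O ↔ ‖x‖ ≤ 1 ∧ (‖x‖ = 1 → x ∉ O) := by
  simp only [X, mem_sdiff, mem_closedBall, dist_zero_right, mem_inter_iff, mem_sphere, not_and]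

lemma mem_X_of_lt {O : Set (Fin (m + 1) → ℝ)} {x : Fin (m + 1) → ℝ} (h : ‖x‖ < 1) : x ∈ X m O :=
  mem_X.2 ⟨h.le, fun h' => absurd h' h.ne⟩

/-- polar coordinates -/
noncomputable def pol (m : ℕ) (x : Fin (m + 1) → ℝ) : (Fin (m + 1) → ℝ) × ℝ :=
  (‖x‖⁻¹ • x, 1 - ‖x‖)

/-- the part near the sphere in polar coordinates -/
def YY (m : ℕ) (O : Set (Fin (m + 1) → ℝ)) : Set ((Fin (m + 1) → ℝ) × ℝ) :=
  {z | ‖z.1‖ = 1 ∧ z.2 ∈ Icc (0 : ℝ) (1 / 2) ∧ (0 < z.2 ∨ z.1 ∉ O)}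

lemma good_YY {O : Set (Fin (m + 1) → ℝ)} (hO : IsOpen O) : Good (YY m O) := by
  refine ⟨fun z hz => hz.2.1.1, fun ε hε => ?_⟩
  have e : {z | z ∈ YY m O ∧ (z.2 = 0 ∨ ε ≤ z.2)} =
      ((sphere (0 : Fin (m + 1) → ℝ) 1) ×ˢ Icc (0 : ℝ) (1 / 2)) ∩
      (({z | z.2 = 0} ∩ {z | z.1 ∈ Oᶜ}) ∪ {z | ε ≤ z.2}) := by
    ext z
    simp only [YY, mem_ofPred_eq, mem_inter_iff, mem_prod, mem_sphere, dist_zero_right,
      mem_union, mem_compl_iff]
    constructor
    · rintro ⟨⟨h1, h2, h3⟩, h4 | h4⟩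
      · refine ⟨⟨h1, h2⟩, Or.inl ⟨h4, ?_⟩⟩
        rcases h3 with h3 | h3
        · rw [h4] at h3
          exact absurd h3 (lt_irrefl _)
        · exact h3
      · exact ⟨⟨h1, h2⟩, Or.inr h4⟩
    · rintro ⟨⟨h1, h2⟩, ⟨h3, h4⟩ | h3⟩
      · exact ⟨⟨h1, h2, Or.inr h4⟩, Or.inl h3⟩
      · exact ⟨⟨h1, h2, Or.inl (hε.trans_le h3)⟩, Or.inr h3⟩
  rw [e]
  refine ((isCompact_sphere _ _).prod isCompact_Icc).inter_right ?_
  refine IsClosed.union (IsClosed.inter ?_ ?_) ?_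
  · exact isClosed_eq continuous_snd continuous_const
  · exact hO.isClosed_compl.preimage continuous_fst
  · exact isClosed_le continuous_const continuous_snd

lemma pol_embed (O : Set (Fin (m + 1) → ℝ)) :
    IsEmbedding (fun x : {x | x ∈ X m O ∧ 1 / 2 ≤ ‖x‖} => pol m x) := by
  have hpos : ∀ x : {x | x ∈ X m O ∧ 1 / 2 ≤ ‖x‖}, ‖(x : Fin (m + 1) → ℝ)‖ ≠ 0 := by
    intro x
    have h := x.2.2
    intro h0
    rw [h0] at h
    norm_num at h
  have h1 : Continuous (fun x : {x | x ∈ X m O ∧ 1 / 2 ≤ ‖x‖} => pol m x) := by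
    unfold pol
    refine Continuous.prodMk ?_ (by fun_prop)
    exact (Continuous.inv₀ (by fun_prop) hpos).smul continuous_subtype_val
  have h2 : Continuous (fun z : (Fin (m + 1) → ℝ) × ℝ => (1 - z.2) • z.1) := by fun_prop
  refine IsEmbedding.of_comp h1 h2 ?_
  have e : (fun z : (Fin (m + 1) → ℝ) × ℝ => (1 - z.2) • z.1) ∘
      (fun x : {x | x ∈ X m O ∧ 1 / 2 ≤ ‖x‖} => pol m x) = Subtype.val := by
    funext x
    simp only [Function.comp, pol]
    rw [sub_sub_cancel, smul_smul, mul_inv_cancel₀ (hpos x), one_smul]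
  rw [e]
  exact IsEmbedding.subtypeVal

lemma pol_image (O : Set (Fin (m + 1) → ℝ)) :
    pol m '' {x | x ∈ X m O ∧ 1 / 2 ≤ ‖x‖} = YY m O := by
  ext z
  constructor
  · rintro ⟨x, ⟨hx, hx2⟩, rfl⟩
    have hx' := mem_X.1 hx
    have hpos : 0 < ‖x‖ := by linarith
    refine ⟨?_, ⟨?_, ?_⟩, ?_⟩
    · show ‖‖x‖⁻¹ • x‖ = 1
      rw [norm_smul, norm_inv, norm_norm, inv_mul_cancel₀ hpos.ne']
    · show 0 ≤ 1 - ‖x‖
      linarith [hx'.1]
    · show 1 - ‖x‖ ≤ 1 / 2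
      linarith
    · rcases lt_or_eq_of_le hx'.1 with h | h
      · left
        show 0 < 1 - ‖x‖
        linarith
      · right
        show ‖x‖⁻¹ • x ∉ O
        rw [h, inv_one, one_smul]
        exact hx'.2 h
  · rintro ⟨h1, h2, h3⟩
    have hn : ‖(1 - z.2) • z.1‖ = 1 - z.2 := by
      rw [norm_smul, h1, mul_one, Real.norm_eq_abs, abs_of_nonneg (by linarith [h2.2])]
    refine ⟨(1 - z.2) • z.1, ⟨mem_X.2 ⟨?_, ?_⟩, ?_⟩, ?_⟩
    · rw [hn]; linarith [h2.1]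
    · intro h
      rw [hn] at h
      have h0 : z.2 = 0 := by linarith
      rcases h3 with h3 | h3
      · rw [h0] at h3
        exact absurd h3 (lt_irrefl _)
      · rw [h0, sub_zero, one_smul]
        exact h3
    · rw [hn]; linarith [h2.2]
    · refine Prod.ext ?_ ?_
      · show ‖(1 - z.2) • z.1‖⁻¹ • ((1 - z.2) • z.1) = z.1
        rw [hn, smul_smul, inv_mul_cancel₀ (by linarith [h2.2]), one_smul]
      · show 1 - ‖(1 - z.2) • z.1‖ = z.2
        rw [hn]; ring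

lemma pcmp_X1 {O : Set (Fin (m + 1) → ℝ)} (hO : IsOpen O) :
    PCmp 3 {x | x ∈ X m O ∧ 1 / 2 ≤ ‖x‖} := by
  rw [← pcmp_image (f := pol m) (pol_embed O), pol_image]
  exact pcmp_three_gen (good_YY hO)

lemma loc_int (O : Set (Fin (m + 1) → ℝ)) {S : Set (Fin (m + 1) → ℝ)} (hS : IsClosed S)
    {q : Fin (m + 1) → ℝ} (hq : ‖q‖ < 1) :
    IsCompact ((X m O ∩ S) ∩ closedBall q ((1 - ‖q‖) / 2)) := by
  have e : (X m O ∩ S) ∩ closedBall q ((1 - ‖q‖) / 2) = closedBall q ((1 - ‖q‖) / 2) ∩ S := by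
    ext x
    constructor
    · rintro ⟨⟨-, h1⟩, h2⟩
      exact ⟨h2, h1⟩
    · rintro ⟨h1, h2⟩
      refine ⟨⟨mem_X_of_lt ?_, h2⟩, h1⟩
      have h3 := mem_closedBall.1 h1
      have h4 : ‖x‖ ≤ dist x q + ‖q‖ := by
        rw [dist_eq_norm]
        calc ‖x‖ = ‖(x - q) + q‖ := by rw [sub_add_cancel]
          _ ≤ _ := norm_add_le _ _
      linarith
  rw [e]
  exact (isCompact_closedBall _ _).inter_right hS

/-- The upper bound for all sets `O`. -/
theorem pcmp_three_X {O : Set (Fin (m + 1) → ℝ)} (hO : IsOpen O) : PCmp 3 (X m O) := by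
  intro p hp G hG hpG
  by_cases hp2 : ‖p‖ < 1
  · refine step_loc (η₀ := (1 - ‖p‖) / 2) (by linarith) ?_ hG hpG 2
    have := loc_int O isClosed_univ hp2
    rwa [inter_univ] at this
  have hp1 : ‖p‖ = 1 := le_antisymm (mem_X.1 hp).1 (not_lt.1 hp2)
  have hcl : IsClosed {x : Fin (m + 1) → ℝ | ‖x‖ ≤ 1 / 2} :=
    isClosed_le continuous_norm continuous_const
  obtain ⟨U, V, hU, hV, hUV, hpU, hGV, hS⟩ := pcmp_X1 hO p ⟨hp, by rw [hp1]; norm_num⟩
    (G ∪ {x | ‖x‖ ≤ 1 / 2}) (hG.union hcl) (by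
      rintro (h | h)
      · exact hpG h
      · have h' : ‖p‖ ≤ 1 / 2 := h
        rw [hp1] at h'
        norm_num at h')
  refine ⟨U ∩ {x | 1 / 2 < ‖x‖}, V ∪ {x | ‖x‖ < 1 / 2},
    hU.inter (isOpen_lt continuous_const continuous_norm),
    hV.union (isOpen_lt continuous_norm continuous_const), ?_, ⟨hpU, ?_⟩, ?_, ?_⟩
  · ext x
    simp only [mem_inter_iff, mem_empty_iff_false, iff_false, not_and]
    rintro ⟨⟨h1, h2⟩, h3⟩ h4
    have h2' : 1 / 2 < ‖x‖ := h2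
    rcases h3 with h3 | h3
    · have : x ∈ U ∩ V ∩ {x | x ∈ X m O ∧ 1 / 2 ≤ ‖x‖} := ⟨⟨h1, h3⟩, h4, h2'.le⟩
      rw [hUV] at this
      exact this
    · exact lt_asymm h2' h3
  · show 1 / 2 < ‖p‖
    rw [hp1]; norm_num
  · rintro x ⟨hxG, hxX⟩
    by_cases h : ‖x‖ < 1 / 2
    · exact Or.inr h
    · left
      exact hGV ⟨Or.inl hxG, hxX, not_lt.1 h⟩
  · have e : X m O \ (U ∩ {x | 1 / 2 < ‖x‖} ∪ (V ∪ {x | ‖x‖ < 1 / 2})) =
        {x | x ∈ X m O ∧ 1 / 2 ≤ ‖x‖} \ (U ∪ V) := by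
      ext x
      simp only [mem_sdiff, mem_union, mem_inter_iff, mem_ofPred_eq, not_or, not_and, not_lt]
      constructor
      · rintro ⟨h1, h2, h3, h4⟩
        refine ⟨⟨h1, h4⟩, fun hxU => ?_, h3⟩
        have h5 := h2 hxU
        exact h3 (hGV ⟨Or.inr h5, h1, h4⟩)
      · rintro ⟨⟨h1, h4⟩, h2, h3⟩
        exact ⟨h1, fun h => absurd h h2, h3, h4⟩
    rw [e]
    exact hS

/-- Without the whole sphere. -/
theorem pcmp_one_X {O : Set (Fin (m + 1) → ℝ)} (h : sphere 0 1 ⊆ O) : PCmp 1 (X m O) := by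
  apply pcmp_one
  intro q hq
  have hq1 : ‖q‖ < 1 := by
    refine lt_of_le_of_ne (mem_X.1 hq).1 fun h1 => (mem_X.1 hq).2 h1 (h ?_)
    rw [mem_sphere, dist_zero_right]
    exact h1
  refine ⟨(1 - ‖q‖) / 2, by linarith, ?_⟩
  have := loc_int O isClosed_univ hq1
  rwa [inter_univ] at this

/-- If the rest of the sphere is totally disconnected. -/
theorem pcmp_two_X {O : Set (Fin (m + 1) → ℝ)} (hO : IsOpen O)
    (h : IsTotallyDisconnected (sphere (0 : Fin (m + 1) → ℝ) 1 \ O)) : PCmp 2 (X m O) := by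
  intro p hp G hG hpG
  by_cases hp2 : ‖p‖ < 1
  · refine step_loc (η₀ := (1 - ‖p‖) / 2) (by linarith) ?_ hG hpG 1
    have := loc_int O isClosed_univ hp2
    rwa [inter_univ] at this
  have hp1 : ‖p‖ = 1 := le_antisymm (mem_X.1 hp).1 (not_lt.1 hp2)
  set F : Set (Fin (m + 1) → ℝ) := sphere (0 : Fin (m + 1) → ℝ) 1 \ O with hF
  have hFc : IsCompact F := (isCompact_sphere _ _).diff hO
  have hpF : p ∈ F := ⟨by rw [mem_sphere, dist_zero_right]; exact hp1, (mem_X.1 hp).2 hp1⟩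
  have : CompactSpace F := isCompact_iff_compactSpace.1 hFc
  have : TotallyDisconnectedSpace F := totallyDisconnectedSpace_subtype_iff.2 h
  have hGo : IsOpen (Subtype.val ⁻¹' Gᶜ : Set F) := hG.isOpen_compl.preimage continuous_subtype_val
  obtain ⟨W, hW, hpW, hWG⟩ := compact_exists_isClopen_in_isOpen hGo
    (x := ⟨p, hpF⟩) hpG
  let A : Set (Fin (m + 1) → ℝ) := Subtype.val '' W
  let B : Set (Fin (m + 1) → ℝ) := (Subtype.val '' Wᶜ) ∪ G
  have hA : IsClosed A := (hW.1.isCompact.image continuous_subtype_val).isClosed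
  have hB : IsClosed B :=
    (hW.2.isClosed_compl.isCompact.image continuous_subtype_val).isClosed.union hG
  have hAB : ∀ x, x ∈ A → x ∉ B := by
    rintro _ ⟨a, ha, rfl⟩ (⟨b, hb, hab⟩ | hx)
    · rw [Subtype.val_injective hab] at hb
      exact hb ha
    · exact hWG ha hx
  have hFAB : F ⊆ A ∪ B := by
    intro x hx
    by_cases hxW : (⟨x, hx⟩ : F) ∈ W
    · exact Or.inl ⟨_, hxW, rfl⟩
    · exact Or.inr (Or.inl ⟨_, hxW, rfl⟩)
  have hpA : p ∈ A := ⟨_, hpW, rfl⟩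
  -- separate `A` and `B`
  obtain ⟨U, V, hU, hV, hAU, hBV, hUV⟩ := normal_separation hA hB
    (Set.disjoint_left.2 hAB)
  refine ⟨U, V, hU, hV, ?_, hAU hpA, fun x hx => hBV (Or.inr hx.1), ?_⟩
  · rw [Set.disjoint_iff_inter_eq_empty.1 hUV, empty_inter]
  · apply pcmp_one
    rintro q ⟨hqX, hq⟩
    have hq1 : ‖q‖ < 1 := by
      refine lt_of_le_of_ne (mem_X.1 hqX).1 fun h1 => hq ?_
      have : q ∈ F := ⟨by rw [mem_sphere, dist_zero_right]; exact h1, (mem_X.1 hqX).2 h1⟩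
      rcases hFAB this with h | h
      · exact Or.inl (hAU h)
      · exact Or.inr (hBV h)
    refine ⟨(1 - ‖q‖) / 2, by linarith, ?_⟩
    rw [Set.sdiff_eq]
    exact loc_int O (hU.union hV).isClosed_compl hq1

end BallSec

end Pool.Agent.Y62.CP
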