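import Pool.Agent.Y62.CP.Top

/-!
# Arcs, components and their boundaries on the sphere
-/

set_option autoImplicit false

open Set Topology Metric

namespace Pool.Agent.Y62.CP

section General

variable {E : Type} [TopologicalSpace E]

/-- joined points lie in a compact connected set -/
lemma joined_set {F : Set E} {x y : E} (h : JoinedIn F x y) :
    ∃ L : Set E, IsCompact L ∧ IsPreconnected L ∧ x ∈ L ∧ y ∈ L ∧ L ⊆ F := by
  refine ⟨range h.somePath, isCompact_range h.somePath.continuous,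
    isPreconnected_range h.somePath.continuous, ⟨0, h.somePath.source⟩, ⟨1, h.somePath.target⟩, ?_⟩
  rintro _ ⟨t, rfl⟩
  exact h.somePath_mem t

lemma sep_aux {K C A B P N : Set E} (hK : IsPreconnected K) (hCK : C ⊆ K) (hCne : C.Nonempty)
    (hA : IsOpen A) (hB : IsOpen B) (hP : IsOpen P) (hN : IsOpen N)
    (hPN : K \ C ⊆ P ∪ N) (hdis : ∀ x ∈ K \ C, x ∈ P → x ∉ N)
    (hsub : C ∪ ((K \ C) ∩ N) ⊆ A ∪ B) (hCA : C ⊆ A)
    (hBne : ((C ∪ ((K \ C) ∩ N)) ∩ B).Nonempty)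
    (hcon : ∀ x ∈ C ∪ ((K \ C) ∩ N), x ∈ A → x ∉ B) : False := by
  have hcov : K ⊆ (A ∪ P) ∪ (N ∩ B) := by
    intro x hx
    by_cases hxC : x ∈ C
    · exact Or.inl (Or.inl (hCA hxC))
    · rcases hPN ⟨hx, hxC⟩ with h | h
      · exact Or.inl (Or.inr h)
      · rcases hsub (Or.inr ⟨⟨hx, hxC⟩, h⟩) with h' | h'
        · exact Or.inl (Or.inl h')
        · exact Or.inr ⟨h, h'⟩
  obtain ⟨c, hc⟩ := hCne
  obtain ⟨b, hb, hbB⟩ := hBne
  have hbN : b ∈ (K \ C) ∩ N := by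
    rcases hb with hb | hb
    · exact absurd hbB (hcon b (Or.inl hb) (hCA hb))
    · exact hb
  obtain ⟨x, hxK, hx1, hx2⟩ := hK (A ∪ P) (N ∩ B) (hA.union hP) (hN.inter hB) hcov
    ⟨c, hCK hc, Or.inl (hCA hc)⟩ ⟨b, hbN.1.1, hbN.2, hbB⟩
  by_cases hxC : x ∈ C
  · exact hcon x (Or.inl hxC) (hCA hxC) hx2.2
  · rcases hx1 with h | h
    · exact hcon x (Or.inr ⟨⟨hxK, hxC⟩, hx2.1⟩) h hx2.2
    · exact hdis x ⟨hxK, hxC⟩ h hx2.1

/-- If a connected subset is removed from a connected space, then adding one side of a separation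
of the rest gives a connected set. -/
lemma sep {K C P N : Set E} (hK : IsPreconnected K) (hC : IsPreconnected C) (hCK : C ⊆ K)
    (hCne : C.Nonempty) (hP : IsOpen P) (hN : IsOpen N) (hPN : K \ C ⊆ P ∪ N)
    (hdis : ∀ x ∈ K \ C, x ∈ P → x ∉ N) : IsPreconnected (C ∪ ((K \ C) ∩ N)) := by
  intro A B hA hB hsub hAne hBne
  by_contra hcon
  have hcon' : ∀ x ∈ C ∪ ((K \ C) ∩ N), x ∈ A → x ∉ B := fun x hx h1 h2 =>
    hcon ⟨x, hx, h1, h2⟩
  have hCsub : C ⊆ A ∪ B := subset_union_left.trans hsub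
  by_cases h : (C ∩ B).Nonempty
  · by_cases h' : (C ∩ A).Nonempty
    · obtain ⟨x, hx, hx'⟩ := hC A B hA hB hCsub h' h
      exact hcon' x (Or.inl hx) hx'.1 hx'.2
    · have hCB : C ⊆ B := by
        intro x hx
        rcases hCsub hx with h1 | h1
        · exact absurd ⟨x, hx, h1⟩ h'
        · exact h1
      refine sep_aux hK hCK hCne hB hA hP hN hPN hdis ?_ hCB hAne
        (fun x hx h1 h2 => hcon' x hx h2 h1)
      rw [union_comm B A]
      exact hsub
  · have hCA : C ⊆ A := by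
      intro x hx
      rcases hCsub hx with h1 | h1
      · exact h1
      · exact absurd ⟨x, hx, h1⟩ h
    exact sep_aux hK hCK hCne hA hB hP hN hPN hdis hsub hCA hBne hcon'

/-- The complement of a component of the complement of a connected set is connected. -/
lemma compl_component {K D R : Set E} (hK : IsPreconnected K) (hD : IsPreconnected D)
    (hR : R = K \ D) (hDK : D ⊆ K) {c : E} (hc : c ∈ R) :
    IsPreconnected (K \ connectedComponentIn R c) := by
  set C := connectedComponentIn R c with hCdef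
  have hCR : C ⊆ R := connectedComponentIn_subset R c
  have hCc : IsPreconnected C := isPreconnected_connectedComponentIn
  have hcC : c ∈ C := mem_connectedComponentIn hc
  have hCK : C ⊆ K := fun x hx => by
    have := hCR hx
    rw [hR] at this
    exact this.1
  have hDC : D ⊆ K \ C := by
    intro x hx
    refine ⟨hDK hx, fun h => ?_⟩
    have := hCR h
    rw [hR] at this
    exact this.2 hx
  have main : ∀ P N : Set E, IsOpen P → IsOpen N → K \ C ⊆ P ∪ N →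
      (∀ x ∈ K \ C, x ∈ P → x ∉ N) → D ⊆ P → ¬ ((K \ C) ∩ N).Nonempty := by
    intro P N hP hN hPN hdis hDP ⟨x, hx, hxN⟩
    have h1 := sep hK hCc hCK ⟨c, hcC⟩ hP hN hPN hdis
    have h2 : C ∪ ((K \ C) ∩ N) ⊆ R := by
      rintro y (hy | ⟨hy, hyN⟩)
      · exact hCR hy
      · rw [hR]
        exact ⟨hy.1, fun hyD => hdis y hy (hDP hyD) hyN⟩
    have h3 : C ∪ ((K \ C) ∩ N) ⊆ C := h1.subset_connectedComponentIn (Or.inl hcC) h2
    exact hx.2 (h3 (Or.inr ⟨hx, hxN⟩))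
  intro P N hP hN hPN hPne hNne
  by_contra hcon
  have hdis : ∀ x ∈ K \ C, x ∈ P → x ∉ N := fun x hx h1 h2 => hcon ⟨x, hx, h1, h2⟩
  have hDsub : D ⊆ P ∪ N := hDC.trans hPN
  by_cases h : (D ∩ N).Nonempty
  · by_cases h' : (D ∩ P).Nonempty
    · obtain ⟨x, hx, hx'⟩ := hD P N hP hN hDsub h' h
      exact hdis x (hDC hx) hx'.1 hx'.2
    · refine main N P hN hP ?_ (fun x hx h1 h2 => hdis x hx h2 h1) ?_ hPne
      · rw [union_comm N P]
        exact hPN
      · intro x hx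
        rcases hDsub hx with h1 | h1
        · exact absurd ⟨x, hx, h1⟩ h'
        · exact h1
  · refine main P N hP hN hPN hdis ?_ hNne
    intro x hx
    rcases hDsub hx with h1 | h1
    · exact h1
    · exact absurd ⟨x, hx, h1⟩ h

end General

section Sphere

variable {m : ℕ}

/-- the sphere -/
abbrev Sp (m : ℕ) : Set (Fin (m + 1) → ℝ) := sphere (0 : Fin (m + 1) → ℝ) 1

lemma mem_Sp {x : Fin (m + 1) → ℝ} : x ∈ Sp m ↔ ‖x‖ = 1 := by
  rw [mem_sphere, dist_zero_right]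

/-- the radial projection -/
noncomputable def proj (x : Fin (m + 1) → ℝ) : Fin (m + 1) → ℝ := ‖x‖⁻¹ • x

lemma proj_mem {x : Fin (m + 1) → ℝ} (h : x ≠ 0) : proj x ∈ Sp m := by
  rw [mem_Sp, proj, norm_smul, norm_inv, norm_norm, inv_mul_cancel₀ (norm_ne_zero_iff.2 h)]

lemma proj_eq {x : Fin (m + 1) → ℝ} (h : x ∈ Sp m) : proj x = x := by
  rw [proj, mem_Sp.1 h, inv_one, one_smul]

lemma proj_dist {x : Fin (m + 1) → ℝ} (h : x ≠ 0) : dist (proj x) x = |1 - ‖x‖| := by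
  have hn := norm_ne_zero_iff.2 h
  have e : proj x - x = ((1 - ‖x‖) * ‖x‖⁻¹) • x := by
    rw [proj, sub_mul, one_mul, mul_inv_cancel₀ hn, sub_smul, one_smul]
  rw [dist_eq_norm, e, norm_smul, norm_mul, norm_inv, norm_norm, mul_assoc,
    inv_mul_cancel₀ hn, mul_one, Real.norm_eq_abs]

/-- a short arc -/
lemma joined_near {x y : Fin (m + 1) → ℝ} (hx : x ∈ Sp m) (hy : y ∈ Sp m) (h : dist x y < 1) :
    JoinedIn (Sp m ∩ closedBall x (2 * dist x y)) x y := by
  have hw : ∀ t ∈ Icc (0 : ℝ) 1, ‖x + t • (y - x) - x‖ ≤ dist x y := by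
    intro t ht
    rw [add_sub_cancel_left, norm_smul, Real.norm_eq_abs, abs_of_nonneg ht.1, dist_comm,
      dist_eq_norm]
    exact mul_le_of_le_one_left (norm_nonneg _) ht.2
  have hn1 : ∀ t ∈ Icc (0 : ℝ) 1, 1 - dist x y ≤ ‖x + t • (y - x)‖ := by
    intro t ht
    have h1 := hw t ht
    have h2 : ‖x‖ ≤ ‖x + t • (y - x)‖ + ‖x + t • (y - x) - x‖ := by
      calc ‖x‖ = ‖(x + t • (y - x)) - (x + t • (y - x) - x)‖ := by congr 1; abel
        _ ≤ _ := norm_sub_le _ _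
    rw [mem_Sp.1 hx] at h2
    linarith
  have hn2 : ∀ t ∈ Icc (0 : ℝ) 1, ‖x + t • (y - x)‖ ≤ 1 := by
    intro t ht
    have e : x + t • (y - x) = (1 - t) • x + t • y := by
      rw [smul_sub, sub_smul, one_smul]
      abel
    rw [e]
    refine (norm_add_le _ _).trans ?_
    rw [norm_smul, norm_smul, mem_Sp.1 hx, mem_Sp.1 hy, Real.norm_eq_abs, Real.norm_eq_abs,
      abs_of_nonneg (by linarith [ht.2] : (0 : ℝ) ≤ 1 - t), abs_of_nonneg ht.1]
    linarith
  have hne : ∀ t ∈ Icc (0 : ℝ) 1, x + t • (y - x) ≠ 0 := by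
    intro t ht h0
    have := hn1 t ht
    rw [h0, norm_zero] at this
    linarith
  refine JoinedIn.ofLine (f := fun t : ℝ => proj (x + t • (y - x))) ?_ ?_ ?_ ?_
  · unfold proj
    have hc : Continuous (fun t : ℝ => x + t • (y - x)) := by fun_prop
    exact (ContinuousOn.inv₀ hc.norm.continuousOn
      (fun t ht => norm_ne_zero_iff.2 (hne t ht))).smul hc.continuousOn
  · simp only [zero_smul, add_zero]
    exact proj_eq hx
  · simp only [one_smul, add_sub_cancel]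
    exact proj_eq hy
  · rintro _ ⟨t, ht, rfl⟩
    refine ⟨proj_mem (hne t ht), ?_⟩
    rw [mem_closedBall]
    have h1 := dist_triangle (proj (x + t • (y - x))) (x + t • (y - x)) x
    rw [proj_dist (hne t ht), dist_eq_norm (x + t • (y - x)) x] at h1
    have h2 := hw t ht
    have h3 := hn1 t ht
    have h4 := hn2 t ht
    rw [abs_of_nonneg (by linarith)] at h1
    linarith

lemma preconn_Sp (hm : 1 ≤ m) : IsPreconnected (Sp m) := by
  have h1 : (1 : Cardinal) < Module.rank ℝ (Fin (m + 1) → ℝ) := by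
    rw [rank_fin_fun]
    exact_mod_cast (by omega : 1 < m + 1)
  exact isPreconnected_sphere h1 0 1

/-- the sphere without a point is connected -/
lemma preconn_Sp_diff (q : Fin (m + 1) → ℝ) (hq : q ∈ Sp m) : IsPreconnected (Sp m \ {q}) := by
  have hq1 := mem_Sp.1 hq
  refine isPreconnected_of_forall (-q) fun x hx => ?_
  have hx1 := mem_Sp.1 hx.1
  have key : ∀ t ∈ Icc (0 : ℝ) 1, ∀ c : ℝ, 0 ≤ c → (1 - t) • x + t • (-q) ≠ c • q := by
    intro t ht c hc h
    have h1 : (1 - t) • x = (t + c) • q := by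
      rw [add_smul, ← h]
      simp only [smul_neg]
      abel
    have h2 : ‖(1 - t) • x‖ = ‖(t + c) • q‖ := by rw [h1]
    rw [norm_smul, norm_smul, hx1, hq1, mul_one, mul_one, Real.norm_eq_abs, Real.norm_eq_abs,
      abs_of_nonneg (by linarith [ht.2] : (0 : ℝ) ≤ 1 - t),
      abs_of_nonneg (by linarith [ht.1] : (0 : ℝ) ≤ t + c)] at h2
    rw [← h2] at h1
    have h3 : (1 - t) ≠ 0 := by
      intro h0
      have : t = 1 := by linarith
      linarith
    exact hx.2 (smul_right_injective _ h3 h1)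
  have hne : ∀ t ∈ Icc (0 : ℝ) 1, (1 - t) • x + t • (-q) ≠ 0 := by
    intro t ht h
    exact key t ht 0 le_rfl (by rw [h, zero_smul])
  refine ⟨(fun t : ℝ => proj ((1 - t) • x + t • (-q))) '' Icc 0 1, ?_, ?_, ?_, ?_⟩
  · rintro _ ⟨t, ht, rfl⟩
    refine ⟨proj_mem (hne t ht), fun h => ?_⟩
    have h' : proj ((1 - t) • x + t • (-q)) = q := h
    refine key t ht ‖(1 - t) • x + t • (-q)‖ (norm_nonneg _) ?_
    nth_rewrite 3 [← h']
    rw [proj, smul_smul, mul_inv_cancel₀ (norm_ne_zero_iff.2 (hne t ht)), one_smul]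
  · refine ⟨1, ⟨zero_le_one, le_rfl⟩, ?_⟩
    simp only [sub_self, zero_smul, one_smul, zero_add]
    exact proj_eq (by rw [mem_Sp, norm_neg]; exact hq1)
  · refine ⟨0, ⟨le_rfl, zero_le_one⟩, ?_⟩
    simp only [sub_zero, one_smul, zero_smul, add_zero]
    exact proj_eq hx.1
  · refine isPreconnected_Icc.image _ ?_
    unfold proj
    have hc : Continuous (fun t : ℝ => (1 - t) • x + t • (-q)) := by fun_prop
    exact (ContinuousOn.inv₀ hc.norm.continuousOn
      (fun t ht => norm_ne_zero_iff.2 (hne t ht))).smul hc.continuousOn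

/-- the path component of `z₀` in the part of the sphere in `O` -/
def D1 (O : Set (Fin (m + 1) → ℝ)) (z₀ : Fin (m + 1) → ℝ) : Set (Fin (m + 1) → ℝ) :=
  {z | JoinedIn (Sp m ∩ O) z₀ z}

variable {O : Set (Fin (m + 1) → ℝ)} {z₀ : Fin (m + 1) → ℝ}

lemma D1_sub : D1 O z₀ ⊆ Sp m ∩ O := fun _ hz => hz.target_mem

lemma D1_self (hz : z₀ ∈ Sp m ∩ O) : z₀ ∈ D1 O z₀ := JoinedIn.refl hz

lemma D1_preconn : IsPreconnected (D1 O z₀) := by
  refine isPreconnected_of_forall z₀ fun x hx => ?_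
  have hx' : JoinedIn (Sp m ∩ O) z₀ x := hx
  refine ⟨range hx'.somePath, ?_, ⟨0, hx'.somePath.source⟩, ⟨1, hx'.somePath.target⟩,
    isPreconnected_range hx'.somePath.continuous⟩
  rintro _ ⟨t, rfl⟩
  have h1 : JoinedIn (range hx'.somePath) z₀ (hx'.somePath t) := by
    have h0 : PathConnectedSpace unitInterval := isPathConnected_iff_pathConnectedSpace.1
      ((convex_Icc (0 : ℝ) 1).isPathConnected ⟨0, by simp⟩)
    have h2 : IsPathConnected (range hx'.somePath) := isPathConnected_range hx'.somePath.continuous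
    exact h2.joinedIn _ ⟨0, hx'.somePath.source⟩ _ ⟨t, rfl⟩
  refine h1.mono ?_
  rintro _ ⟨s, rfl⟩
  exact hx'.somePath_mem s

lemma near_D1 (hO : IsOpen O) {z : Fin (m + 1) → ℝ} (hz : z ∈ Sp m ∩ O) :
    ∃ ε : ℝ, 0 < ε ∧ ∀ y ∈ Sp m, dist z y < ε → JoinedIn (Sp m ∩ O) z y := by
  obtain ⟨ε, hε, hb⟩ := Metric.isOpen_iff.1 hO z hz.2
  refine ⟨min (ε / 2) 1, by positivity, fun y hy hd => ?_⟩
  have h1 : dist z y < 1 := hd.trans_le (min_le_right _ _)
  have h2 : dist z y < ε / 2 := hd.trans_le (min_le_left _ _)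
  refine (joined_near hz.1 hy h1).mono ?_
  rintro w ⟨hw1, hw2⟩
  refine ⟨hw1, hb ?_⟩
  rw [mem_closedBall] at hw2
  rw [mem_ball]
  linarith

lemma D1_open (hO : IsOpen O) {z : Fin (m + 1) → ℝ} (hz : z ∈ D1 O z₀) :
    ∃ ε : ℝ, 0 < ε ∧ ∀ y ∈ Sp m, dist z y < ε → y ∈ D1 O z₀ := by
  obtain ⟨ε, hε, h⟩ := near_D1 hO (D1_sub hz)
  exact ⟨ε, hε, fun y hy hd => JoinedIn.trans hz (h y hy hd)⟩

lemma D1_closed (hO : IsOpen O) {z : Fin (m + 1) → ℝ} (hz : z ∈ closure (D1 O z₀))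
    (hz' : z ∈ Sp m ∩ O) : z ∈ D1 O z₀ := by
  obtain ⟨ε, hε, h⟩ := near_D1 hO hz'
  obtain ⟨y, hy, hd⟩ := Metric.mem_closure_iff.1 hz ε hε
  exact JoinedIn.trans hy (h y (D1_sub hy).1 hd).symm

lemma closure_D1_sub : closure (D1 O z₀) ⊆ Sp m :=
  closure_minimal (fun _ hx => (D1_sub hx).1) isClosed_sphere

/-- the rest of the sphere is closed -/
lemma rest_closed (hO : IsOpen O) : IsClosed (Sp m \ D1 O z₀) := by
  have e : Sp m \ D1 O z₀ = Sp m ∩ ((Sp m)ᶜ ∪ D1 O z₀)ᶜ := by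
    ext x
    simp only [mem_sdiff, mem_inter_iff, mem_compl_iff, mem_union, not_or, not_not]
    tauto
  rw [e]
  refine isClosed_sphere.inter (IsOpen.isClosed_compl ?_)
  rw [Metric.isOpen_iff]
  rintro x (hx | hx)
  · obtain ⟨ε, hε, h⟩ := Metric.isOpen_iff.1 (isClosed_sphere (x := (0 : Fin (m + 1) → ℝ))
      (ε := 1)).isOpen_compl x hx
    exact ⟨ε, hε, h.trans subset_union_left⟩
  · obtain ⟨ε, hε, h⟩ := D1_open hO hx
    refine ⟨ε, hε, fun y hy => ?_⟩
    by_cases hyS : y ∈ Sp m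
    · exact Or.inr (h y hyS (by rw [dist_comm]; exact hy))
    · exact Or.inl hyS

/-- A boundary point of the component. -/
lemma exists_boundary (hm : 1 ≤ m) (hO : IsOpen O) (hz : z₀ ∈ Sp m ∩ O)
    (hF : (Sp m \ O).Nonempty) : ∃ p ∈ closure (D1 O z₀), p ∈ Sp m \ O := by
  obtain ⟨f, hf⟩ := hF
  have h := isPreconnected_closed_iff.1 (preconn_Sp hm) (closure (D1 O z₀)) (Sp m \ D1 O z₀)
    isClosed_closure (rest_closed hO) (fun x hx => by
      by_cases hxD : x ∈ D1 O z₀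
      · exact Or.inl (subset_closure hxD)
      · exact Or.inr ⟨hx, hxD⟩)
    ⟨z₀, hz.1, subset_closure (D1_self hz)⟩ ⟨f, hf.1, hf.1, fun h => hf.2 (D1_sub h).2⟩
  obtain ⟨p, hp, hp1, hp2⟩ := h
  exact ⟨p, hp1, hp, fun hpO => hp2.2 (D1_closed hO hp1 ⟨hp, hpO⟩)⟩

/-- A connected set with two points in the boundary of the component. -/
theorem exists_continuum (hm : 2 ≤ m) (hO : IsOpen O) (hz : z₀ ∈ Sp m ∩ O)
    {C : Set (Fin (m + 1) → ℝ)} (hC : IsPreconnected C) (hCF : C ⊆ Sp m \ O)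
    {a b : Fin (m + 1) → ℝ} (ha : a ∈ C) (hb : b ∈ C) (hab : a ≠ b) :
    ∃ (Q : Set (Fin (m + 1) → ℝ)) (p y : Fin (m + 1) → ℝ), IsClosed Q ∧ IsPreconnected Q ∧
      Q ⊆ Sp m \ O ∧ Q ⊆ closure (D1 O z₀) ∧ p ∈ Q ∧ y ∈ Q ∧ p ≠ y := by
  have hm1 : 1 ≤ m := by omega
  set R : Set (Fin (m + 1) → ℝ) := Sp m \ D1 O z₀ with hR
  have hRc : IsClosed R := rest_closed hO
  have hCR : C ⊆ R := fun x hx => ⟨(hCF hx).1, fun h => (hCF hx).2 (D1_sub h).2⟩
  set E1 := connectedComponentIn R a with hE1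
  have hE1R : E1 ⊆ R := connectedComponentIn_subset R a
  have hE1c : IsPreconnected E1 := isPreconnected_connectedComponentIn
  have haE : a ∈ E1 := mem_connectedComponentIn (hCR ha)
  have hCE : C ⊆ E1 := hC.subset_connectedComponentIn ha hCR
  have hE1cl : IsClosed E1 := by
    refine isClosed_of_closure_subset ?_
    exact hE1c.closure.subset_connectedComponentIn (subset_closure haE)
      (closure_minimal hE1R hRc)
  have hE1K : E1 ⊆ Sp m := fun x hx => (hE1R hx).1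
  have hcompl : IsPreconnected (Sp m \ E1) :=
    compl_component (preconn_Sp hm1) D1_preconn rfl (fun x hx => (D1_sub hx).1) (hCR ha)
  have hDE : D1 O z₀ ⊆ Sp m \ E1 := fun x hx => ⟨(D1_sub hx).1, fun h => (hE1R h).2 hx⟩
  have hBK : closure (Sp m \ E1) ⊆ Sp m := closure_minimal sdiff_subset isClosed_sphere
  have hcov : Sp m ⊆ E1 ∪ closure (Sp m \ E1) := by
    intro x hx
    by_cases h : x ∈ E1
    · exact Or.inl h
    · exact Or.inr (subset_closure ⟨hx, h⟩)
  have hQ : IsPreconnected (E1 ∩ closure (Sp m \ E1)) :=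
    unicoherent hm hE1cl isClosed_closure hE1K hBK hcov hE1c hcompl.closure
  have hQD : E1 ∩ closure (Sp m \ E1) ⊆ closure (D1 O z₀) := by
    rintro q ⟨hq1, hq2⟩
    by_contra hq
    rw [Metric.mem_closure_iff] at hq
    push Not at hq
    obtain ⟨ε, hε, hεq⟩ := hq
    obtain ⟨y, hy, hd⟩ := Metric.mem_closure_iff.1 hq2 (min (ε / 3) 1) (by positivity)
    have h1 : dist q y < 1 := hd.trans_le (min_le_right _ _)
    have h2 : dist q y < ε / 3 := hd.trans_le (min_le_left _ _)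
    obtain ⟨L, -, hL, hqL, hyL, hLs⟩ := joined_set (joined_near (hE1K hq1) hy.1 h1)
    have hLR : L ⊆ R := by
      intro x hx
      refine ⟨(hLs hx).1, fun hxD => ?_⟩
      have h3 := hεq x hxD
      have h4 := mem_closedBall.1 (hLs hx).2
      rw [dist_comm] at h4
      linarith
    have h5 : L ⊆ E1 := by
      rw [hE1, connectedComponentIn_eq hq1]
      exact hL.subset_connectedComponentIn hqL hLR
    exact hy.2 (h5 hyL)
  have hQF : E1 ∩ closure (Sp m \ E1) ⊆ Sp m \ O := by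
    intro q hq
    refine ⟨hE1K hq.1, fun hqO => ?_⟩
    exact (hE1R hq.1).2 (D1_closed hO (hQD hq) ⟨hE1K hq.1, hqO⟩)
  have hne := isPreconnected_closed_iff.1 (preconn_Sp hm1) E1 (closure (Sp m \ E1)) hE1cl
    isClosed_closure hcov ⟨a, hE1K haE, haE⟩
    ⟨z₀, hz.1, subset_closure (hDE (D1_self hz))⟩
  obtain ⟨q, hqK, hqQ⟩ := hne
  have hex : ∃ y ∈ E1 ∩ closure (Sp m \ E1), q ≠ y := by
    by_contra hcon
    push Not at hcon
    have h1 := isPreconnected_closed_iff.1 (preconn_Sp_diff q hqK) E1 (closure (Sp m \ E1)) hE1cl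
      isClosed_closure (sdiff_subset.trans hcov)
    have hA : ((Sp m \ {q}) ∩ E1).Nonempty := by
      by_cases haq : a = q
      · exact ⟨b, ⟨hE1K (hCE hb), fun h => hab (haq.trans h.symm)⟩, hCE hb⟩
      · exact ⟨a, ⟨hE1K haE, haq⟩, haE⟩
    have hB : ((Sp m \ {q}) ∩ closure (Sp m \ E1)).Nonempty := by
      refine ⟨z₀, ⟨hz.1, fun h => ?_⟩, subset_closure (hDE (D1_self hz))⟩
      have h' : z₀ = q := h
      rw [← h'] at hqQ
      exact (hE1R hqQ.1).2 (D1_self hz)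
    obtain ⟨x, hx, hx'⟩ := h1 hA hB
    exact hx.2 (hcon x hx').symm
  obtain ⟨y, hy, hqy⟩ := hex
  exact ⟨_, q, y, hE1cl.inter isClosed_closure, hQ, hQF, hQD, hqQ, hy, hqy⟩

end Sphere

end Pool.Agent.Y62.CP
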