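import Pool.Agent.Y62.CP.Ball
import Pool.Agent.Y62.CP.Geo

/-!
# Balls without a relatively open subset of the bounding sphere: lower bounds
-/

set_option autoImplicit false

open Set Topology Metric

namespace Pool.Agent.Y62.CP

open Pool.Agent.Results.MP_3364cd_gt.CmpCubeOpenFace

variable {m : ℕ} {O : Set (Fin (m + 1) → ℝ)}

section Shrink

variable {t : ℝ}

lemma shrink_norm (ht : t ≤ 1) {x : Fin (m + 1) → ℝ} (hx : x ∈ Sp m) : ‖(1 - t) • x‖ = 1 - t := by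
  rw [norm_smul, mem_Sp.1 hx, mul_one, Real.norm_eq_abs, abs_of_nonneg (by linarith)]

lemma shrink_dist (ht : 0 ≤ t) {x : Fin (m + 1) → ℝ} (hx : x ∈ Sp m) :
    dist ((1 - t) • x) x = t := by
  have e : (1 - t) • x - x = (-t) • x := by
    rw [sub_smul, one_smul, neg_smul]
    abel
  rw [dist_eq_norm, e, norm_smul, mem_Sp.1 hx, mul_one, Real.norm_eq_abs, abs_neg,
    abs_of_nonneg ht]

lemma shrink_mem (ht : 0 < t) (ht1 : t ≤ 1) {x : Fin (m + 1) → ℝ} (hx : x ∈ Sp m) :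
    (1 - t) • x ∈ X m O :=
  mem_X_of_lt (by rw [shrink_norm ht1 hx]; linarith)

end Shrink

/-- Some part of the sphere is missing: not compact. -/
theorem not_pcmp_zero {z₀ : Fin (m + 1) → ℝ} (hz : z₀ ∈ Sp m ∩ O) : ¬ PCmp 0 (X m O) := by
  intro h
  have h' : IsCompact (X m O) := h
  have h1 : z₀ ∈ closure (X m O) := by
    rw [Metric.mem_closure_iff]
    intro ε hε
    refine ⟨(1 - min (ε / 2) 1) • z₀, shrink_mem (by positivity) (min_le_right _ _) hz.1, ?_⟩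
    rw [dist_comm, shrink_dist (by positivity) hz.1]
    have := min_le_left (ε / 2) 1
    linarith
  rw [h'.isClosed.closure_eq] at h1
  exact (mem_X.1 h1).2 (mem_Sp.1 hz.1) hz.2

/-- Some part of the sphere is missing, and some part is present. -/
theorem not_pcmp_one (hm : 1 ≤ m) (hO : IsOpen O) {z₀ : Fin (m + 1) → ℝ} (hz : z₀ ∈ Sp m ∩ O)
    (hF : (Sp m \ O).Nonempty) : ¬ PCmp 1 (X m O) := by
  intro h
  obtain ⟨p, hpD, hp⟩ := exists_boundary hm hO hz hF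
  have hpX : p ∈ X m O := mem_X.2 ⟨(mem_Sp.1 hp.1).le, fun _ => hp.2⟩
  have hr : 0 < dist z₀ p := dist_pos.2 fun h => hp.2 (h ▸ hz.2)
  set r := dist z₀ p with hrdef
  have hG : IsClosed {x : Fin (m + 1) → ℝ | r / 2 ≤ dist x p} :=
    isClosed_le continuous_const (by fun_prop)
  obtain ⟨U, V, hU, hV, hUV, hpU, hGV, hS⟩ := h p hpX _ hG (by
    intro hc
    have hc' : r / 2 ≤ dist p p := hc
    rw [dist_self] at hc'
    linarith)
  have hSc : IsCompact (X m O \ (U ∪ V)) := hS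
  obtain ⟨ε, hε, hball⟩ := Metric.isOpen_iff.1 hU p hpU
  obtain ⟨z₁, hz₁, hd₁⟩ := Metric.mem_closure_iff.1 hpD (ε / 2) (by positivity)
  have hj : JoinedIn (Sp m ∩ O) z₁ z₀ := JoinedIn.symm hz₁
  obtain ⟨L, hLc, hL, h1L, h0L, hLs⟩ := joined_set hj
  have hLS : L ⊆ (X m O \ (U ∪ V))ᶜ := by
    intro x hx hc
    exact (mem_X.1 hc.1).2 (mem_Sp.1 (hLs hx).1) (hLs hx).2
  obtain ⟨δ, hδ, hδL⟩ := hLc.exists_thickening_subset_open hSc.isClosed.isOpen_compl hLS
  let t : ℝ := min (min (δ / 2) (ε / 4)) (min (r / 4) (1 / 2))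
  have ht : 0 < t := by positivity
  have t1 : t ≤ δ / 2 := (min_le_left _ _).trans (min_le_left _ _)
  have t2 : t ≤ ε / 4 := (min_le_left _ _).trans (min_le_right _ _)
  have t3 : t ≤ r / 4 := (min_le_right _ _).trans (min_le_left _ _)
  have t4 : t ≤ 1 / 2 := (min_le_right _ _).trans (min_le_right _ _)
  have hLU : ∀ x ∈ L, (1 - t) • x ∈ U ∪ V := by
    intro x hx
    by_contra hc
    have h1 : (1 - t) • x ∈ thickening δ L := by
      rw [Metric.mem_thickening_iff]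
      exact ⟨x, hx, by rw [shrink_dist ht.le (hLs hx).1]; linarith⟩
    exact hδL h1 ⟨shrink_mem ht (by linarith) (hLs hx).1, hc⟩
  have him := hL.image (fun x : Fin (m + 1) → ℝ => (1 - t) • x) (by fun_prop)
  obtain ⟨w, ⟨x, hx, rfl⟩, hw1, hw2⟩ := him U V hU hV (by
      rintro _ ⟨x, hx, rfl⟩
      exact hLU x hx)
    ⟨(1 - t) • z₁, ⟨z₁, h1L, rfl⟩, hball (by
      rw [mem_ball]
      have h1 := dist_triangle ((1 - t) • z₁) z₁ p
      rw [shrink_dist ht.le (hLs h1L).1, dist_comm z₁ p] at h1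
      linarith)⟩
    ⟨(1 - t) • z₀, ⟨z₀, h0L, rfl⟩, hGV ⟨by
      show r / 2 ≤ dist ((1 - t) • z₀) p
      have h1 := dist_triangle_left z₀ p ((1 - t) • z₀)
      rw [shrink_dist ht.le hz.1] at h1
      linarith, shrink_mem ht (by linarith) hz.1⟩⟩
  have : (1 - t) • x ∈ U ∩ V ∩ X m O := ⟨⟨hw1, hw2⟩, shrink_mem ht (by linarith) (hLs hx).1⟩
  rw [hUV] at this
  exact this

/-- A part of the sphere is missing, and the rest contains a nondegenerate connected set. -/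
theorem not_pcmp_two (hm : 2 ≤ m) (hO : IsOpen O) {z₀ : Fin (m + 1) → ℝ} (hz : z₀ ∈ Sp m ∩ O)
    {C : Set (Fin (m + 1) → ℝ)} (hC : IsPreconnected C) (hCF : C ⊆ Sp m \ O)
    {a b : Fin (m + 1) → ℝ} (ha : a ∈ C) (hb : b ∈ C) (hab : a ≠ b) : ¬ PCmp 2 (X m O) := by
  classical
  intro h
  obtain ⟨Q, p, y, hQc, hQ, hQF, hQD, hpQ, hyQ, hpy⟩ := exists_continuum hm hO hz hC hCF ha hb hab
  have hp := hQF hpQ
  have hy := hQF hyQ
  have hFX : ∀ x ∈ Sp m \ O, x ∈ X m O := fun x hx =>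
    mem_X.2 ⟨(mem_Sp.1 hx.1).le, fun _ => hx.2⟩
  have hr : 0 < dist y p := dist_pos.2 (Ne.symm hpy)
  set r := dist y p with hrdef
  have hG : IsClosed {x : Fin (m + 1) → ℝ | r / 2 ≤ dist x p} :=
    isClosed_le continuous_const (by fun_prop)
  obtain ⟨U, V, hU, hV, hUV, hpU, hGV, hS⟩ := h p (hFX p hp) _ hG (by
    intro hc
    have hc' : r / 2 ≤ dist p p := hc
    rw [dist_self] at hc'
    linarith)
  obtain ⟨ε, hε, hball⟩ := Metric.isOpen_iff.1 hU p hpU
  obtain ⟨z₁, hz₁, hd₁⟩ := Metric.mem_closure_iff.1 (hQD hpQ) (min (ε / 8) 1) (by positivity)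
  obtain ⟨z₂, hz₂, hd₂⟩ := Metric.mem_closure_iff.1 (hQD hyQ) (min (r / 16) 1) (by positivity)
  have hd₁a : dist p z₁ < ε / 8 := hd₁.trans_le (min_le_left _ _)
  have hd₁b : dist p z₁ < 1 := hd₁.trans_le (min_le_right _ _)
  have hd₂a : dist y z₂ < r / 16 := hd₂.trans_le (min_le_left _ _)
  have hd₂b : dist y z₂ < 1 := hd₂.trans_le (min_le_right _ _)
  obtain ⟨L1, hL1c, hL1, hpL1, hzL1, hL1s⟩ := joined_set (joined_near hp.1 (D1_sub hz₁).1 hd₁b)
  obtain ⟨L3, hL3c, hL3, hyL3, hzL3, hL3s⟩ := joined_set (joined_near hy.1 (D1_sub hz₂).1 hd₂b)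
  have hj : JoinedIn (Sp m ∩ O) z₁ z₂ := JoinedIn.trans (JoinedIn.symm hz₁) hz₂
  obtain ⟨L2, hL2c, hL2, h1L2, h2L2, hL2s⟩ := joined_set hj
  -- the compact set `F`
  set F : Set (Fin (m + 1) → ℝ) := Sp m \ O with hFdef
  have hF : IsCompact F := (isCompact_sphere _ _).diff hO
  obtain ⟨σ, hσ, hσO⟩ := hL2c.exists_thickening_subset_open hO (fun x hx => (hL2s hx).2)
  have hFσ : ∀ f ∈ F, f ∉ cthickening (σ / 2) L2 := fun f hf hc =>
    hf.2 (hσO (cthickening_subset_thickening' hσ (by linarith) L2 hc))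
  have hK0 : IsCompact (F \ (U ∪ V)) := hF.diff (hU.union hV)
  have hq : ∀ q : ↥(F \ (U ∪ V)), ∃ P P' : Set (Fin (m + 1) → ℝ), IsOpen P ∧ IsOpen P' ∧
      P ∩ P' ∩ (X m O \ (U ∪ V)) = ∅ ∧ q.1 ∈ P ∧
      cthickening (σ / 2) L2 ∩ (X m O \ (U ∪ V)) ⊆ P' ∧
      IsCompact ((X m O \ (U ∪ V)) \ (P ∪ P')) := by
    rintro ⟨q, hqF, hqUV⟩
    exact hS q ⟨hFX q hqF, hqUV⟩ _ isClosed_cthickening (hFσ q hqF)
  choose P P' hP hP' hPP' hqP hGP' hTc using hq
  obtain ⟨Fs, hFs⟩ := hK0.elim_finite_subcover P hP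
    (fun q hq => mem_iUnion.mpr ⟨⟨q, hq⟩, hqP ⟨q, hq⟩⟩)
  have hW : IsOpen (U ∪ V ∪ ⋃ q ∈ Fs, P q) := (hU.union hV).union (isOpen_biUnion fun q _ => hP q)
  have hFW : F ⊆ U ∪ V ∪ ⋃ q ∈ Fs, P q := by
    intro z hz
    by_cases hzUV : z ∈ U ∪ V
    · exact Or.inl hzUV
    · exact Or.inr (hFs ⟨hz, hzUV⟩)
  obtain ⟨δ, hδ, hδW⟩ := hF.exists_thickening_subset_open hW hFW
  let T : Set (Fin (m + 1) → ℝ) := ⋃ q ∈ Fs, (X m O \ (U ∪ V)) \ (P q ∪ P' q)
  have hT : IsCompact T := Fs.isCompact_biUnion fun q _ => hTc q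
  have hTX : ∀ x ∈ T, x ∈ X m O := by
    intro x hx
    simp only [T, mem_iUnion] at hx
    obtain ⟨q, -, hx, -⟩ := hx
    exact hx.1
  let K1 : Set (Fin (m + 1) → ℝ) := Sp m \ thickening (δ / 2) F
  have hK1 : IsCompact K1 := (isCompact_sphere _ _).diff isOpen_thickening
  have hK1T : K1 ⊆ Tᶜ := by
    rintro x ⟨hx1, hx2⟩ hxT
    apply hx2
    refine self_subset_thickening (by positivity) F ⟨hx1, ?_⟩
    exact (mem_X.1 (hTX x hxT)).2 (mem_Sp.1 hx1)
  obtain ⟨δ', hδ', hδT⟩ := hK1.exists_thickening_subset_open hT.isClosed.isOpen_compl hK1T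
  let t : ℝ := min (min (min (δ / 2) (δ' / 2)) (min (σ / 4) (ε / 4))) (min (r / 8) (1 / 2))
  have ht : 0 < t := by positivity
  have t1 : t ≤ δ / 2 := ((min_le_left _ _).trans (min_le_left _ _)).trans (min_le_left _ _)
  have t2 : t ≤ δ' / 2 := ((min_le_left _ _).trans (min_le_left _ _)).trans (min_le_right _ _)
  have t3 : t ≤ σ / 4 := ((min_le_left _ _).trans (min_le_right _ _)).trans (min_le_left _ _)
  have t4 : t ≤ ε / 4 := ((min_le_left _ _).trans (min_le_right _ _)).trans (min_le_right _ _)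
  have t5 : t ≤ r / 8 := (min_le_right _ _).trans (min_le_left _ _)
  have t6 : t ≤ 1 / 2 := (min_le_right _ _).trans (min_le_right _ _)
  let e : (Fin (m + 1) → ℝ) → (Fin (m + 1) → ℝ) := fun x => (1 - t) • x
  have he : Continuous e := by fun_prop
  have heX : ∀ x ∈ Sp m, e x ∈ X m O := fun x hx => shrink_mem ht (by linarith) hx
  have hed : ∀ x ∈ Sp m, dist (e x) x = t := fun x hx => shrink_dist ht.le hx
  have hUVX : ∀ x ∈ Sp m, e x ∈ U → e x ∉ V := by
    intro x hx h1 h2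
    have : e x ∈ U ∩ V ∩ X m O := ⟨⟨h1, h2⟩, heX x hx⟩
    rw [hUV] at this
    exact this
  have hFnear : ∀ x ∈ F, e x ∈ U ∪ V ∪ ⋃ q ∈ Fs, P q := by
    intro x hx
    apply hδW
    rw [Metric.mem_thickening_iff]
    exact ⟨x, hx, by rw [hed x hx.1]; linarith⟩
  let A : Set (Fin (m + 1) → ℝ) := Sp m ∩ ⋃ q ∈ Fs, (e ⁻¹' (U ∪ V ∪ P' q))ᶜ
  let B : Set (Fin (m + 1) → ℝ) := Sp m ∩ (e ⁻¹' (U ∪ V ∪ ⋃ q ∈ Fs, P q))ᶜ
  have hA : IsClosed A := by
    refine isClosed_sphere.inter (Fs.finite_toSet.isClosed_biUnion fun q _ => ?_)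
    exact (((hU.union hV).union (hP' q)).preimage he).isClosed_compl
  have hB : IsClosed B := isClosed_sphere.inter (hW.preimage he).isClosed_compl
  have hAB : Disjoint A B := by
    rw [Set.disjoint_left]
    rintro x ⟨hxS, hxA⟩ ⟨-, hxB⟩
    simp only [mem_iUnion, exists_prop] at hxA
    obtain ⟨q, hqF, hxq⟩ := hxA
    have hxq' : e x ∉ U ∪ V ∪ P' q := hxq
    rw [mem_union, not_or] at hxq'
    have hxB' : e x ∉ U ∪ V ∪ ⋃ q ∈ Fs, P q := hxB
    have hxT : e x ∈ T := by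
      simp only [T, mem_iUnion]
      refine ⟨q, hqF, ⟨heX x hxS, hxq'.1⟩, ?_⟩
      rw [mem_union, not_or]
      exact ⟨fun hc => hxB' (Or.inr (mem_biUnion hqF hc)), hxq'.2⟩
    by_cases hxF : x ∈ thickening (δ / 2) F
    · apply hxB'
      apply hδW
      obtain ⟨f, hf, hfd⟩ := Metric.mem_thickening_iff.1 hxF
      rw [Metric.mem_thickening_iff]
      refine ⟨f, hf, ?_⟩
      have h1 := dist_triangle (e x) x f
      rw [hed x hxS] at h1
      linarith
    · have h1 : e x ∈ thickening δ' K1 := by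
        rw [Metric.mem_thickening_iff]
        exact ⟨x, ⟨hxS, hxF⟩, by rw [hed x hxS]; linarith⟩
      exact hδT h1 hxT
  -- the two connected sets
  have hLA : IsPreconnected (L1 ∪ L2 ∪ L3) := by
    refine IsPreconnected.union z₂ (Or.inr h2L2) hzL3 ?_ hL3
    exact IsPreconnected.union z₁ hzL1 h1L2 hL1 hL2
  have hLAc : IsClosed (L1 ∪ L2 ∪ L3) := ((hL1c.union hL2c).union hL3c).isClosed
  have hLAK : L1 ∪ L2 ∪ L3 ⊆ Sp m := by
    rintro x ((hx | hx) | hx)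
    · exact (hL1s hx).1
    · exact (hL2s hx).1
    · exact (hL3s hx).1
  refine janiszewski hm (A := A) (B := B) (U := e ⁻¹' U) (V := e ⁻¹' V) (LA := L1 ∪ L2 ∪ L3)
    (LB := Q) hA hB (hU.preimage he) (hV.preimage he) hAB hUVX ?_ hLA hLAc hLAK ?_ hQ hQc
    (fun x hx => (hQF hx).1) ?_ (p := p) (y := y) (Or.inl (Or.inl hpL1)) hpQ (Or.inr hyL3) hyQ
    ?_ ?_
  · intro x hx h1 h2
    have h1' : e x ∉ U := h1
    have h2' : e x ∉ V := h2
    by_cases hc : e x ∈ ⋃ q ∈ Fs, P q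
    · left
      refine ⟨hx, ?_⟩
      simp only [mem_iUnion, exists_prop] at hc ⊢
      obtain ⟨q, hqF, hxq⟩ := hc
      refine ⟨q, hqF, ?_⟩
      rintro ((hc' | hc') | hc')
      · exact h1' hc'
      · exact h2' hc'
      · have : e x ∈ P q ∩ P' q ∩ (X m O \ (U ∪ V)) := by
          refine ⟨⟨hxq, hc'⟩, heX x hx, ?_⟩
          rw [mem_union, not_or]
          exact ⟨h1', h2'⟩
        rw [hPP' q] at this
        exact this
    · right
      refine ⟨hx, ?_⟩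
      rintro ((hc' | hc') | hc')
      · exact h1' hc'
      · exact h2' hc'
      · exact hc hc'
  · rintro x hx h1 h2 ⟨hxS, hxA⟩
    have h1' : e x ∉ U := h1
    have h2' : e x ∉ V := h2
    rcases hx with (hx | hx) | hx
    · apply h1'
      apply hball
      rw [mem_ball]
      have h3 := dist_triangle (e x) x p
      rw [hed x hxS] at h3
      have h4 := mem_closedBall.1 (hL1s hx).2
      linarith
    · simp only [mem_iUnion, exists_prop] at hxA
      obtain ⟨q, hqF, hxq⟩ := hxA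
      apply hxq
      refine Or.inr (hGP' q ⟨?_, heX x hxS, ?_⟩)
      · rw [Metric.mem_cthickening_iff]
        refine (Metric.infEDist_le_edist_of_mem hx).trans ?_
        rw [edist_dist, hed x hxS]
        exact ENNReal.ofReal_le_ofReal (by linarith)
      · rw [mem_union, not_or]
        exact ⟨h1', h2'⟩
    · apply h2'
      apply hGV
      refine ⟨?_, heX x hxS⟩
      show r / 2 ≤ dist (e x) p
      have h3 := mem_closedBall.1 (hL3s hx).2
      have h4 := dist_triangle4 y x (e x) p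
      rw [dist_comm x (e x), hed x hxS, dist_comm y x] at h4
      linarith
  · rintro x hx h1 h2 ⟨-, hxB⟩
    exact hxB (hFnear x (hQF hx))
  · show e p ∈ U
    apply hball
    rw [mem_ball, hed p hp.1]
    linarith
  · show e y ∈ V
    apply hGV
    refine ⟨?_, heX y hy.1⟩
    show r / 2 ≤ dist (e y) p
    have h4 := dist_triangle y (e y) p
    rw [dist_comm y (e y), hed y hy.1] at h4
    linarith

end Pool.Agent.Y62.CP
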