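import Mathlib

/-!
# Plane-like topology of spheres of dimension at least two

Continuous logarithms on the sphere, the unicoherence of the sphere, and the theorem of Janiszewski
(two disjoint closed sets which together separate two points).
-/

set_option autoImplicit false

open Set Topology Metric

namespace Pool.Agent.Y62.CP

section Pieces

variable {E : Type} [TopologicalSpace E]

lemma const_of_int {L : Set E} (hL : IsPreconnected L) {f : E → ℝ} (hf : ContinuousOn f L)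
    (hz : ∀ x ∈ L, ∃ k : ℤ, f x = k) {x y : E} (hx : x ∈ L) (hy : y ∈ L) : f x = f y := by
  have hord : (f '' L).OrdConnected := (hL.image f hf).ordConnected
  have key : ∀ a ∈ L, ∀ b ∈ L, ¬ f a < f b := by
    intro a ha b hb hab
    obtain ⟨k, hk⟩ := hz a ha
    obtain ⟨l, hl⟩ := hz b hb
    rw [hk, hl] at hab
    have hkl : k + 1 ≤ l := by exact_mod_cast hab
    have hkl' : (k : ℝ) + 1 ≤ l := by exact_mod_cast hkl
    have hmem : (k : ℝ) + 1 / 2 ∈ Icc (f a) (f b) := by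
      rw [hk, hl]
      constructor <;> linarith
    obtain ⟨c, hc, hfc⟩ := hord.out ⟨a, ha, rfl⟩ ⟨b, hb, rfl⟩ hmem
    obtain ⟨n, hn⟩ := hz c hc
    rw [hn] at hfc
    have h2 : (2 : ℝ) * n = 2 * k + 1 := by linarith
    have h3 : (2 : ℤ) * n = 2 * k + 1 := by exact_mod_cast h2
    omega
  exact le_antisymm (not_lt.1 (key y hy x hx)) (not_lt.1 (key x hx y hy))

lemma glue_cont {L P1 P2 : Set E} (hLc : IsClosed L) (h1 : IsClosed P1) (h2 : IsClosed P2)
    (hcov : L ⊆ P1 ∪ P2) {Y : Type} [TopologicalSpace Y] {f1 f2 f : E → Y}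
    (hf1 : ContinuousOn f1 (L ∩ P1)) (hf2 : ContinuousOn f2 (L ∩ P2))
    (e1 : ∀ x ∈ L ∩ P1, f x = f1 x) (e2 : ∀ x ∈ L ∩ P2, f x = f2 x) : ContinuousOn f L := by
  have hL : L = (L ∩ P1) ∪ (L ∩ P2) := by
    rw [← inter_union_distrib_left]
    exact (inter_eq_left.2 hcov).symm
  rw [hL]
  exact (hf1.congr e1).union_of_isClosed (hf2.congr e2) (hLc.inter h1) (hLc.inter h2)

lemma two_piece {L P1 P2 : Set E} (hL : IsPreconnected L) (hLc : IsClosed L) (h1 : IsClosed P1)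
    (h2 : IsClosed P2) (hcov : L ⊆ P1 ∪ P2) {f1 f2 : E → ℝ} (hf1 : ContinuousOn f1 L)
    (hf2 : ContinuousOn f2 L) (heq : ∀ x ∈ L, x ∈ P1 → x ∈ P2 → f1 x = f2 x)
    (hz1 : ∀ x ∈ L, x ∈ P1 → ∃ k : ℤ, f1 x = k) (hz2 : ∀ x ∈ L, x ∈ P2 → ∃ k : ℤ, f2 x = k)
    {x y : E} (hx : x ∈ L) (hx1 : x ∈ P1) (hy : y ∈ L) (hy2 : y ∈ P2) : f1 x = f2 y := by
  classical
  let f : E → ℝ := fun z => if z ∈ P1 then f1 z else f2 z
  have e1 : ∀ z ∈ L ∩ P1, f z = f1 z := fun z hz => if_pos hz.2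
  have e2 : ∀ z ∈ L ∩ P2, f z = f2 z := by
    rintro z ⟨hzL, hz2⟩
    by_cases hz1 : z ∈ P1
    · rw [e1 z ⟨hzL, hz1⟩]
      exact heq z hzL hz1 hz2
    · exact if_neg hz1
  have hf : ContinuousOn f L := glue_cont hLc h1 h2 hcov (hf1.mono inter_subset_left)
    (hf2.mono inter_subset_left) e1 e2
  have hz : ∀ z ∈ L, ∃ k : ℤ, f z = k := by
    intro z hz
    rcases hcov hz with h | h
    · rw [e1 z ⟨hz, h⟩]
      exact hz1 z hz h
    · rw [e2 z ⟨hz, h⟩]
      exact hz2 z hz h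
  have := const_of_int hL hf hz hx hy
  rwa [e1 x ⟨hx, hx1⟩, e2 y ⟨hy, hy2⟩] at this

end Pieces

section Sphere

variable {m : ℕ}

/-- the vector which is projected to the half sphere -/
noncomputable def hv (m : ℕ) (s : ℝ) (x : Fin (m + 1) → ℝ) : Fin (m + 1) → ℝ :=
  Function.update x 0 (s * (|x 0| + |1 - ‖x‖|))

lemma hv_cont (s : ℝ) : Continuous (hv m s) := by
  unfold hv
  exact continuous_id.update 0 (by fun_prop)

lemma hv_ne {s : ℝ} (hs : s ≠ 0) (x : Fin (m + 1) → ℝ) : hv m s x ≠ 0 := by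
  intro h
  have h0 : s * (|x 0| + |1 - ‖x‖|) = 0 := by
    have := congrFun h 0
    simpa [hv] using this
  have h1 : |x 0| + |1 - ‖x‖| = 0 := by
    rcases mul_eq_zero.1 h0 with h | h
    · exact absurd h hs
    · exact h
  have h2 : |x 0| = 0 := by
    have := abs_nonneg (x 0)
    have := abs_nonneg (1 - ‖x‖)
    linarith
  have h3 : |1 - ‖x‖| = 0 := by linarith
  have h4 : ‖x‖ = 1 := by
    have := abs_eq_zero.1 h3
    linarith
  have h5 : x = 0 := by
    funext i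
    by_cases hi : i = 0
    · rw [hi]
      exact abs_eq_zero.1 h2
    · have := congrFun h i
      simpa [hv, Function.update_of_ne hi] using this
  rw [h5, norm_zero] at h4
  exact zero_ne_one h4

/-- the retraction to the half sphere -/
noncomputable def hr (m : ℕ) (s : ℝ) (x : Fin (m + 1) → ℝ) : Fin (m + 1) → ℝ :=
  ‖hv m s x‖⁻¹ • hv m s x

lemma hr_cont {s : ℝ} (hs : s ≠ 0) : Continuous (hr m s) := by
  unfold hr
  exact (Continuous.inv₀ ((hv_cont s).norm) (fun x => norm_ne_zero_iff.2 (hv_ne hs x))).smul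
    (hv_cont s)

lemma hr_mem {s : ℝ} (hs : s ≠ 0) (x : Fin (m + 1) → ℝ) : hr m s x ∈ sphere (0 : Fin (m + 1) → ℝ) 1 := by
  rw [mem_sphere, dist_zero_right, hr, norm_smul, norm_inv, norm_norm,
    inv_mul_cancel₀ (norm_ne_zero_iff.2 (hv_ne hs x))]

lemma hr_eq {s : ℝ} (hs : s = 1 ∨ s = -1) {x : Fin (m + 1) → ℝ}
    (hx : x ∈ sphere (0 : Fin (m + 1) → ℝ) 1) (h0 : 0 ≤ s * x 0) : hr m s x = x := by
  have hn : ‖x‖ = 1 := by rwa [mem_sphere, dist_zero_right] at hx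
  have h1 : hv m s x = x := by
    unfold hv
    rw [hn, sub_self, abs_zero, add_zero]
    have : s * |x 0| = x 0 := by
      rcases hs with rfl | rfl
      · rw [one_mul] at h0 ⊢
        exact abs_of_nonneg h0
      · rw [abs_of_nonpos (by linarith)]
        ring
    rw [this, Function.update_eq_self]
  rw [hr, h1, hn, inv_one, one_smul]

/-- the equator is connected -/
lemma equator (hm : 2 ≤ m) :
    IsPreconnected {x : Fin (m + 1) → ℝ | x ∈ sphere (0 : Fin (m + 1) → ℝ) 1 ∧ x 0 = 0} := by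
  have h1 : (1 : Cardinal) < Module.rank ℝ (Fin m → ℝ) := by
    rw [rank_fin_fun]
    exact_mod_cast hm
  have h2 := isPreconnected_sphere h1 (0 : Fin m → ℝ) 1
  have hc : Continuous (fun z : Fin m → ℝ => (Fin.cons 0 z : Fin (m + 1) → ℝ)) := by
    refine continuous_pi fun i => ?_
    refine Fin.cases ?_ (fun i => ?_) i
    · simp only [Fin.cons_zero]
      exact continuous_const
    · simp only [Fin.cons_succ]
      exact continuous_apply i
  have hn : ∀ z : Fin m → ℝ, ‖(Fin.cons 0 z : Fin (m + 1) → ℝ)‖ = ‖z‖ := by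
    intro z
    apply le_antisymm
    · refine (pi_norm_le_iff_of_nonneg (norm_nonneg z)).2 fun i => ?_
      refine Fin.cases ?_ (fun i => ?_) i
      · simp
      · simp only [Fin.cons_succ]
        exact norm_le_pi_norm z i
    · refine (pi_norm_le_iff_of_nonneg (norm_nonneg _)).2 fun i => ?_
      have := norm_le_pi_norm (Fin.cons 0 z : Fin (m + 1) → ℝ) i.succ
      simpa using this
  have h3 := h2.image _ hc.continuousOn
  have e : (fun z : Fin m → ℝ => (Fin.cons 0 z : Fin (m + 1) → ℝ)) '' sphere 0 1 =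
      {x : Fin (m + 1) → ℝ | x ∈ sphere (0 : Fin (m + 1) → ℝ) 1 ∧ x 0 = 0} := by
    ext x
    constructor
    · rintro ⟨z, hz, rfl⟩
      refine ⟨?_, by simp⟩
      rw [mem_sphere, dist_zero_right] at hz ⊢
      rw [hn, hz]
    · rintro ⟨hx, hx0⟩
      have hcons : (Fin.cons 0 (Fin.tail x) : Fin (m + 1) → ℝ) = x := by
        rw [← hx0]
        exact Fin.cons_self_tail x
      refine ⟨Fin.tail x, ?_, hcons⟩
      rw [mem_sphere, dist_zero_right] at hx ⊢
      rw [← hn, hcons, hx]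
  rw [e] at h3
  exact h3

/-- Lifting through the exponential function on the whole space. -/
lemma lift_all (φ : (Fin (m + 1) → ℝ) → ℂ) (hφ : Continuous φ) (hne : ∀ x, φ x ≠ 0) :
    ∃ G : (Fin (m + 1) → ℝ) → ℂ, Continuous G ∧ ∀ x, Complex.exp (G x) = φ x := by
  let Fc : C(Fin (m + 1) → ℝ, ℂ) := ⟨φ, hφ⟩
  have hne' : ∀ p, Fc p ∈ ({0}ᶜ : Set ℂ) := fun p => by
    simp only [Set.mem_compl_iff, Set.mem_singleton_iff]
    exact hne p
  obtain ⟨G, ⟨-, hG⟩, -⟩ := Complex.isCoveringMapOn_exp.existsUnique_continuousMap_lifts Fc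
    (a₀ := 0) (e₀ := Complex.log (Fc 0)) (Complex.exp_log (hne 0)) hne'
  exact ⟨G, G.continuous, fun p => congrFun hG p⟩

/-- Continuous logarithms on the sphere. -/
theorem lift_sphere (hm : 2 ≤ m) {φ : (Fin (m + 1) → ℝ) → ℂ}
    (hφ : ContinuousOn φ (sphere 0 1)) (hne : ∀ x ∈ sphere (0 : Fin (m + 1) → ℝ) 1, φ x ≠ 0) :
    ∃ h : (Fin (m + 1) → ℝ) → ℂ, ContinuousOn h (sphere 0 1) ∧
      ∀ x ∈ sphere (0 : Fin (m + 1) → ℝ) 1, Complex.exp (h x) = φ x := by
  classical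
  have hlift : ∀ s : ℝ, s ≠ 0 → ∃ G : (Fin (m + 1) → ℝ) → ℂ, Continuous G ∧
      ∀ x, Complex.exp (G x) = φ (hr m s x) := fun s hs =>
    lift_all (fun x => φ (hr m s x)) (hφ.comp_continuous (hr_cont hs) (hr_mem hs))
      (fun x => hne _ (hr_mem hs x))
  obtain ⟨Gp, hGp, hGpe⟩ := hlift 1 one_ne_zero
  obtain ⟨Gm, hGm, hGme⟩ := hlift (-1) (by norm_num)
  have hp : ∀ x ∈ sphere (0 : Fin (m + 1) → ℝ) 1, 0 ≤ x 0 → Complex.exp (Gp x) = φ x := by
    intro x hx h0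
    rw [hGpe, hr_eq (Or.inl rfl) hx (by linarith)]
  have hmn : ∀ x ∈ sphere (0 : Fin (m + 1) → ℝ) 1, x 0 ≤ 0 → Complex.exp (Gm x) = φ x := by
    intro x hx h0
    rw [hGme, hr_eq (Or.inr rfl) hx (by linarith)]
  -- the difference on the equator
  have hdiff : ∀ x ∈ {x : Fin (m + 1) → ℝ | x ∈ sphere (0 : Fin (m + 1) → ℝ) 1 ∧ x 0 = 0},
      ∃ k : ℤ, Gp x = Gm x + k * (2 * Real.pi * Complex.I) := by
    rintro x ⟨hx, h0⟩
    exact Complex.exp_eq_exp_iff_exists_int.1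
      ((hp x hx h0.ge).trans (hmn x hx h0.le).symm)
  have hpi : (2 * Real.pi : ℝ) ≠ 0 := by positivity
  have hz : ∀ x ∈ {x : Fin (m + 1) → ℝ | x ∈ sphere (0 : Fin (m + 1) → ℝ) 1 ∧ x 0 = 0},
      ∃ k : ℤ, (fun x => ((Gp x - Gm x).im / (2 * Real.pi))) x = k := by
    intro x hx
    obtain ⟨k, hk⟩ := hdiff x hx
    refine ⟨k, ?_⟩
    show (Gp x - Gm x).im / (2 * Real.pi) = k
    rw [hk, add_sub_cancel_left]
    have : ((k : ℂ) * (2 * Real.pi * Complex.I)).im = k * (2 * Real.pi) := by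
      simp
    rw [this, mul_div_assoc, div_self hpi, mul_one]
  have hcf : ContinuousOn (fun x => ((Gp x - Gm x).im / (2 * Real.pi)))
      {x : Fin (m + 1) → ℝ | x ∈ sphere (0 : Fin (m + 1) → ℝ) 1 ∧ x 0 = 0} := by
    refine Continuous.continuousOn ?_
    exact (Complex.continuous_im.comp (hGp.sub hGm)).div_const _
  -- a point of the equator
  obtain ⟨x₀, hx₀⟩ : ∃ x : Fin (m + 1) → ℝ, x ∈ sphere (0 : Fin (m + 1) → ℝ) 1 ∧ x 0 = 0 := by
    refine ⟨Pi.single ⟨1, by omega⟩ 1, ?_, ?_⟩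
    · rw [mem_sphere, dist_zero_right, Pi.norm_single, norm_one]
    · rw [Pi.single_eq_of_ne]
      intro h
      simpa using congrArg Fin.val h
  obtain ⟨k₀, hk₀⟩ := hdiff x₀ hx₀
  have hall : ∀ x ∈ {x : Fin (m + 1) → ℝ | x ∈ sphere (0 : Fin (m + 1) → ℝ) 1 ∧ x 0 = 0},
      Gp x = Gm x + k₀ * (2 * Real.pi * Complex.I) := by
    intro x hx
    obtain ⟨k, hk⟩ := hdiff x hx
    have h1 := const_of_int (equator hm) hcf hz hx hx₀
    have h2 : ∀ (y : Fin (m + 1) → ℝ) (l : ℤ), Gp y = Gm y + l * (2 * Real.pi * Complex.I) →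
        (Gp y - Gm y).im / (2 * Real.pi) = l := by
      intro y l hl
      rw [hl, add_sub_cancel_left]
      have : ((l : ℂ) * (2 * Real.pi * Complex.I)).im = l * (2 * Real.pi) := by
        simp
      rw [this, mul_div_assoc, div_self hpi, mul_one]
    have h3 : (k : ℝ) = k₀ := by
      rw [← h2 x k hk, ← h2 x₀ k₀ hk₀]
      exact h1
    have h4 : k = k₀ := by exact_mod_cast h3
    rw [hk, h4]
  let h : (Fin (m + 1) → ℝ) → ℂ := fun x =>
    if 0 ≤ x 0 then Gp x else Gm x + k₀ * (2 * Real.pi * Complex.I)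
  have hcl1 : IsClosed {x : Fin (m + 1) → ℝ | 0 ≤ x 0} :=
    isClosed_le continuous_const (continuous_apply 0)
  have hcl2 : IsClosed {x : Fin (m + 1) → ℝ | x 0 ≤ 0} :=
    isClosed_le (continuous_apply 0) continuous_const
  have e1 : ∀ x ∈ sphere (0 : Fin (m + 1) → ℝ) 1 ∩ {x | 0 ≤ x 0}, h x = Gp x := fun x hx =>
    if_pos hx.2
  have e2 : ∀ x ∈ sphere (0 : Fin (m + 1) → ℝ) 1 ∩ {x | x 0 ≤ 0},
      h x = Gm x + k₀ * (2 * Real.pi * Complex.I) := by
    rintro x ⟨hx, hx0⟩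
    have hx0' : x 0 ≤ 0 := hx0
    by_cases h0 : 0 ≤ x 0
    · rw [e1 x ⟨hx, h0⟩]
      exact hall x ⟨hx, le_antisymm hx0' h0⟩
    · exact if_neg h0
  refine ⟨h, glue_cont isClosed_sphere hcl1 hcl2 (fun x _ => ?_) hGp.continuousOn
    ((hGm.add continuous_const).continuousOn) e1 e2, fun x hx => ?_⟩
  · rcases le_total 0 (x 0) with h | h
    · exact Or.inl h
    · exact Or.inr h
  · rcases le_total 0 (x 0) with h0 | h0
    · rw [e1 x ⟨hx, h0⟩]
      exact hp x hx h0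
    · rw [e2 x ⟨hx, h0⟩, Complex.exp_add, hmn x hx h0, Complex.exp_int_mul_two_pi_mul_I, mul_one]

/-- The main tool: a function `g` which is an integer on the intersection of two closed sets which
cover the sphere. -/
theorem key_lift (hm : 2 ≤ m) {P1 P2 : Set (Fin (m + 1) → ℝ)} (h1 : IsClosed P1)
    (h2 : IsClosed P2) (hcov : sphere (0 : Fin (m + 1) → ℝ) 1 ⊆ P1 ∪ P2)
    {g : (Fin (m + 1) → ℝ) → ℝ} (hg : Continuous g)
    (hint : ∀ x ∈ sphere (0 : Fin (m + 1) → ℝ) 1, x ∈ P1 → x ∈ P2 → ∃ k : ℤ, g x = k) :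
    ∃ H : (Fin (m + 1) → ℝ) → ℝ, ContinuousOn H (sphere 0 1) ∧
      (∀ x ∈ sphere (0 : Fin (m + 1) → ℝ) 1, x ∈ P1 → ∃ k : ℤ, H x = g x + 2 * k) ∧
      (∀ x ∈ sphere (0 : Fin (m + 1) → ℝ) 1, x ∈ P2 → ∃ k : ℤ, H x = - g x + 2 * k) := by
  classical
  let e : ℝ → ℂ := fun t => Complex.exp (Real.pi * t * Complex.I)
  have hec : Continuous e := by
    simp only [e]
    fun_prop
  let φ : (Fin (m + 1) → ℝ) → ℂ := fun x => if x ∈ P1 then e (g x) else e (-g x)
  have e1 : ∀ x ∈ sphere (0 : Fin (m + 1) → ℝ) 1 ∩ P1, φ x = e (g x) := fun x hx => if_pos hx.2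
  have e2 : ∀ x ∈ sphere (0 : Fin (m + 1) → ℝ) 1 ∩ P2, φ x = e (-g x) := by
    rintro x ⟨hx, hx2⟩
    by_cases hx1 : x ∈ P1
    · rw [e1 x ⟨hx, hx1⟩]
      obtain ⟨k, hk⟩ := hint x hx hx1 hx2
      simp only [e]
      rw [Complex.exp_eq_exp_iff_exists_int]
      refine ⟨k, ?_⟩
      rw [hk]
      push_cast
      ring
    · exact if_neg hx1
  have hφ : ContinuousOn φ (sphere 0 1) := glue_cont isClosed_sphere h1 h2 hcov
    (hec.comp hg).continuousOn (hec.comp hg.neg).continuousOn e1 e2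
  obtain ⟨h, hh, hhe⟩ := lift_sphere hm hφ (fun x _ => by
    by_cases hx : x ∈ P1
    · simp only [φ, if_pos hx, e]
      exact Complex.exp_ne_zero _
    · simp only [φ, if_neg hx, e]
      exact Complex.exp_ne_zero _)
  have hpi : (Real.pi : ℝ) ≠ 0 := Real.pi_ne_zero
  have fin : ∀ (x : Fin (m + 1) → ℝ) (t : ℝ), Complex.exp (h x) = e t →
      ∃ k : ℤ, (h x).im / Real.pi = t + 2 * k := by
    intro x t ht
    obtain ⟨k, hk⟩ := Complex.exp_eq_exp_iff_exists_int.1 ht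
    refine ⟨k, ?_⟩
    have : (h x).im = Real.pi * t + k * (2 * Real.pi) := by
      rw [hk]
      simp
    rw [this]
    field_simp
  refine ⟨fun x => (h x).im / Real.pi, ?_, ?_, ?_⟩
  · exact (Complex.continuous_im.comp_continuousOn hh).div_const _
  · intro x hx hx1
    exact fin x (g x) ((hhe x hx).trans (e1 x ⟨hx, hx1⟩))
  · intro x hx hx2
    exact fin x (-g x) ((hhe x hx).trans (e2 x ⟨hx, hx2⟩))

/-- The sphere is unicoherent. -/
theorem unicoherent (hm : 2 ≤ m) {A B : Set (Fin (m + 1) → ℝ)} (hA : IsClosed A)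
    (hB : IsClosed B) (hAK : A ⊆ sphere 0 1) (hBK : B ⊆ sphere 0 1)
    (hcov : sphere (0 : Fin (m + 1) → ℝ) 1 ⊆ A ∪ B) (hAc : IsPreconnected A)
    (hBc : IsPreconnected B) : IsPreconnected (A ∩ B) := by
  rw [isPreconnected_closed_iff]
  rintro P N hP hN hsub ⟨a, ha, haP⟩ ⟨b, hb, hbN⟩
  by_contra hcon
  have hdis : Disjoint (A ∩ B ∩ P) (A ∩ B ∩ N) := by
    rw [Set.disjoint_left]
    rintro x ⟨hx, hxP⟩ ⟨-, hxN⟩
    exact hcon ⟨x, hx, hxP, hxN⟩
  obtain ⟨g, hg0, hg1, -⟩ := exists_continuous_zero_one_of_isClosed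
    ((hA.inter hB).inter hP) ((hA.inter hB).inter hN) hdis
  have g0 : ∀ x ∈ A ∩ B ∩ P, g x = 0 := fun x hx => hg0 hx
  have g1 : ∀ x ∈ A ∩ B ∩ N, g x = 1 := fun x hx => hg1 hx
  obtain ⟨H, hH, hH1, hH2⟩ := key_lift hm hA hB hcov g.continuous (by
    intro x _ hxA hxB
    rcases hsub ⟨hxA, hxB⟩ with h | h
    · exact ⟨0, by rw [g0 x ⟨⟨hxA, hxB⟩, h⟩]; simp⟩
    · exact ⟨1, by rw [g1 x ⟨⟨hxA, hxB⟩, h⟩]; simp⟩)
  have c1 : H a - g a = H b - g b := by
    refine const_of_int (f := fun x => H x - g x) hAc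
      ((hH.mono hAK).sub g.continuous.continuousOn) ?_ ha.1 hb.1
    intro x hx
    obtain ⟨k, hk⟩ := hH1 x (hAK hx) hx
    exact ⟨2 * k, by push_cast; linarith⟩
  have c2 : H a + g a = H b + g b := by
    refine const_of_int (f := fun x => H x + g x) hBc
      ((hH.mono hBK).add g.continuous.continuousOn) ?_ ha.2 hb.2
    intro x hx
    obtain ⟨k, hk⟩ := hH2 x (hBK hx) hx
    exact ⟨2 * k, by push_cast; linarith⟩
  rw [g0 a ⟨ha, haP⟩, g1 b ⟨hb, hbN⟩] at c1 c2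
  linarith

/-- Janiszewski's theorem for the sphere. -/
theorem janiszewski (hm : 2 ≤ m) {A B U V LA LB : Set (Fin (m + 1) → ℝ)} (hA : IsClosed A)
    (hB : IsClosed B) (hU : IsOpen U) (hV : IsOpen V) (hAB : Disjoint A B)
    (hUV : ∀ x ∈ sphere (0 : Fin (m + 1) → ℝ) 1, x ∈ U → x ∉ V)
    (hS : ∀ x ∈ sphere (0 : Fin (m + 1) → ℝ) 1, x ∉ U → x ∉ V → x ∈ A ∪ B)
    (hLA : IsPreconnected LA) (hLAc : IsClosed LA) (hLAK : LA ⊆ sphere 0 1)
    (hLAA : ∀ x ∈ LA, x ∉ U → x ∉ V → x ∉ A)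
    (hLB : IsPreconnected LB) (hLBc : IsClosed LB) (hLBK : LB ⊆ sphere 0 1)
    (hLBB : ∀ x ∈ LB, x ∉ U → x ∉ V → x ∉ B)
    {p y : Fin (m + 1) → ℝ} (hpA : p ∈ LA) (hpB : p ∈ LB) (hyA : y ∈ LA) (hyB : y ∈ LB)
    (hpU : p ∈ U) (hyV : y ∈ V) : False := by
  obtain ⟨g, hg0, hg1, -⟩ := exists_continuous_zero_one_of_isClosed hA hB hAB
  have g0 : ∀ x ∈ A, g x = 0 := fun x hx => hg0 hx
  have g1 : ∀ x ∈ B, g x = 1 := fun x hx => hg1 hx
  have hcov : ∀ L : Set (Fin (m + 1) → ℝ), L ⊆ sphere 0 1 → L ⊆ Vᶜ ∪ Uᶜ := by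
    intro L hL x hx
    by_cases hxU : x ∈ U
    · exact Or.inl (hUV x (hL hx) hxU)
    · exact Or.inr hxU
  obtain ⟨H, hH, hH1, hH2⟩ := key_lift hm hV.isClosed_compl hU.isClosed_compl
    (hcov _ subset_rfl) g.continuous (by
    intro x hx hx1 hx2
    rcases hS x hx hx2 hx1 with h | h
    · exact ⟨0, by rw [g0 x h]; simp⟩
    · exact ⟨1, by rw [g1 x h]; simp⟩)
  have hpV : p ∈ Vᶜ := hUV p (hLAK hpA) hpU
  have hyU : y ∈ Uᶜ := fun h => hUV y (hLAK hyA) h hyV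
  have c1 : H p - g p = H y + g y := by
    refine two_piece (f1 := fun x => H x - g x) (f2 := fun x => H x + g x) hLB hLBc
      hV.isClosed_compl hU.isClosed_compl (hcov LB hLBK)
      ((hH.mono hLBK).sub g.continuous.continuousOn)
      ((hH.mono hLBK).add g.continuous.continuousOn) ?_ ?_ ?_ hpB hpV hyB hyU
    · intro x hx h1 h2
      rcases hS x (hLBK hx) h2 h1 with h | h
      · show H x - g x = H x + g x
        rw [g0 x h]
        ring
      · exact absurd h (hLBB x hx h2 h1)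
    · intro x hx h1
      obtain ⟨k, hk⟩ := hH1 x (hLBK hx) h1
      exact ⟨2 * k, by push_cast; linarith⟩
    · intro x hx h2
      obtain ⟨k, hk⟩ := hH2 x (hLBK hx) h2
      exact ⟨2 * k, by push_cast; linarith⟩
  have c2 : H p - g p = H y + g y - 2 := by
    refine two_piece (f1 := fun x => H x - g x) (f2 := fun x => H x + g x - 2) hLA hLAc
      hV.isClosed_compl hU.isClosed_compl (hcov LA hLAK)
      ((hH.mono hLAK).sub g.continuous.continuousOn)
      (((hH.mono hLAK).add g.continuous.continuousOn).sub continuousOn_const) ?_ ?_ ?_ hpA hpV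
      hyA hyU
    · intro x hx h1 h2
      rcases hS x (hLAK hx) h2 h1 with h | h
      · exact absurd h (hLAA x hx h2 h1)
      · show H x - g x = H x + g x - 2
        rw [g1 x h]
        ring
    · intro x hx h1
      obtain ⟨k, hk⟩ := hH1 x (hLAK hx) h1
      exact ⟨2 * k, by push_cast; linarith⟩
    · intro x hx h2
      obtain ⟨k, hk⟩ := hH2 x (hLAK hx) h2
      exact ⟨2 * k - 2, by push_cast; linarith⟩
  linarith

end Sphere

end Pool.Agent.Y62.CP
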