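import Pool.Agent.Results.MP_3364cd_gt.CmpCubeOpenFace

/-!
# Upper bounds for the small inductive compactness degree

`pcmp_three_gen` is the upper bound of the starting file
`Pool.Agent.Results.MP_3364cd_gt.CmpCubeOpenFace` for general subsets of `ℝ^(m+1) × [0, ∞)`.
-/

set_option autoImplicit false

open Set Topology

namespace Pool.Agent.Y62.CP

open Pool.Agent.Results.MP_3364cd_gt.CmpCubeOpenFace

universe u

section Gen

variable {m : ℕ}

/-- The property of a set which makes the upper bound work. -/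
def Good (Y : Set ((Fin (m + 1) → ℝ) × ℝ)) : Prop :=
  (∀ z ∈ Y, 0 ≤ z.2) ∧ ∀ ε : ℝ, 0 < ε → IsCompact {z | z ∈ Y ∧ (z.2 = 0 ∨ ε ≤ z.2)}

lemma compact_of_good {Y : Set ((Fin (m + 1) → ℝ) × ℝ)} (hY : Good Y)
    {C : Set ((Fin (m + 1) → ℝ) × ℝ)} (hC : IsClosed C) {ε : ℝ} (hε : 0 < ε)
    (h : ∀ z ∈ Y ∩ C, z.2 = 0 ∨ ε ≤ z.2) : IsCompact (Y ∩ C) := by
  have e : Y ∩ C = {z | z ∈ Y ∧ (z.2 = 0 ∨ ε ≤ z.2)} ∩ C := by
    ext z
    constructor
    · rintro ⟨hz, hzC⟩
      exact ⟨⟨hz, h z ⟨hz, hzC⟩⟩, hzC⟩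
    · rintro ⟨hz, hzC⟩
      exact ⟨hz.1, hzC⟩
  rw [e]
  exact (hY.2 ε hε).inter_right hC

lemma step_gen {Y : Set ((Fin (m + 1) → ℝ) × ℝ)} (hY : Good Y)
    {C : Set ((Fin (m + 1) → ℝ) × ℝ)} (hC : IsClosed C)
    {p : (Fin (m + 1) → ℝ) × ℝ} (hp2 : 0 < p.2) {G : Set ((Fin (m + 1) → ℝ) × ℝ)}
    (hG : IsClosed G) (hpG : p ∉ G) (k : ℕ) :
    ∃ U V : Set ((Fin (m + 1) → ℝ) × ℝ), IsOpen U ∧ IsOpen V ∧ U ∩ V ∩ (Y ∩ C) = ∅ ∧ p ∈ U ∧
      G ∩ (Y ∩ C) ⊆ V ∧ PCmp k ((Y ∩ C) \ (U ∪ V)) := by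
  obtain ⟨η, hη, h⟩ := exists_closedBall_disjoint hG hpG
  have hη' : 0 < min η (p.2 / 2) := by positivity
  refine ⟨Metric.ball p (min η (p.2 / 2)), (Metric.closedBall p (min η (p.2 / 2)))ᶜ,
    Metric.isOpen_ball, Metric.isClosed_closedBall.isOpen_compl, ?_,
    Metric.mem_ball_self hη', ?_, ?_⟩
  · ext y
    simp only [mem_inter_iff, mem_empty_iff_false, iff_false, not_and]
    rintro ⟨hy1, hy2⟩
    exact absurd (Metric.ball_subset_closedBall hy1) hy2
  · rintro z ⟨hz, -⟩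
    rw [mem_compl_iff, Metric.mem_closedBall, not_le]
    exact (min_le_left _ _).trans_lt (h z hz)
  · apply PCmp.of_isCompact
    have e : (Y ∩ C) \ (Metric.ball p (min η (p.2 / 2)) ∪
        (Metric.closedBall p (min η (p.2 / 2)))ᶜ) = Y ∩ (C ∩ (Metric.ball p (min η (p.2 / 2)) ∪
        (Metric.closedBall p (min η (p.2 / 2)))ᶜ)ᶜ) := by
      rw [sdiff_eq, inter_assoc]
    rw [e]
    apply compact_of_good hY (ε := p.2 / 2)
    · exact hC.inter (Metric.isOpen_ball.union Metric.isClosed_closedBall.isOpen_compl).isClosed_compl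
    · positivity
    · rintro z ⟨-, -, hz⟩
      right
      rw [mem_compl_iff, mem_union, not_or, mem_compl_iff, not_not, Metric.mem_closedBall] at hz
      have h1 := hz.2.trans (min_le_right _ _)
      have h2 : dist z.2 p.2 ≤ dist z p := le_max_right _ _
      rw [Real.dist_eq] at h2
      have h3 := abs_le.mp (h2.trans h1)
      linarith [h3.1]

/-- The upper bound in the model. -/
theorem pcmp_three_gen {Y : Set ((Fin (m + 1) → ℝ) × ℝ)} (hY : Good Y) : PCmp 3 Y := by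
  intro p hp G hG hpG
  by_cases hp2 : 0 < p.2
  · have := step_gen hY isClosed_univ hp2 hG hpG 2
    rw [inter_univ] at this
    exact this
  have hp0 : p.2 = 0 := le_antisymm (not_lt.mp hp2) (hY.1 p hp)
  obtain ⟨η, hη, hηG⟩ := exists_closedBall_disjoint hG hpG
  obtain ⟨S, Q, r, h, hQ, hr, hrpos, hcont, hpos, hneg, hwall, hcov⟩ :=
    exists_functions m p.1 (ρ := η / 2) (by positivity)
  have hU0 : IsOpen (Uo p.1 (η / 2) η (h [])) := Uo_open (hcont [])
  have hV0 : IsOpen (Vo p.1 (η / 2) η (h [])) := Vo_open (hcont [])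
  refine ⟨Uo p.1 (η / 2) η (h []), Vo p.1 (η / 2) η (h []), hU0, hV0, ?_, ?_, ?_, ?_⟩
  · ext z
    simp only [mem_inter_iff, mem_empty_iff_false, iff_false, not_and]
    rintro ⟨hz1, hz2⟩ -
    refine UoVo_disj (by positivity) ?_ ?_ z hz1 hz2
    · intro z hz hd
      exact hpos [] z hz (by rw [hQ, hr]; exact hd)
    · intro z hz hd
      exact hneg [] z hz (by rw [hQ, hr]; exact hd)
  · refine ⟨?_, Or.inl ?_⟩
    · show p.2 < η
      rw [hp0]; exact hη
    · show dist p.1 p.1 < η / 2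
      rw [dist_self]; positivity
  · rintro z ⟨hzG, hzZ⟩
    have h1 := hηG z hzG
    rcases lt_max_iff.mp h1 with h2 | h2
    · right; left
      show 2 * (η / 2) < dist z.1 p.1
      linarith
    · left
      show η < z.2
      rw [hp0, Real.dist_eq, sub_zero, abs_of_nonneg (hY.1 z hzZ)] at h2
      exact h2
  -- the first partition
  intro z hz G' hG' hzG'
  have hC0 : IsClosed (Uo p.1 (η / 2) η (h []) ∪ Vo p.1 (η / 2) η (h []))ᶜ :=
    (hU0.union hV0).isClosed_compl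
  by_cases hz2 : 0 < z.2
  · rw [sdiff_eq]
    exact step_gen hY hC0 hz2 hG' hzG' 1
  have hz0 : z.2 = 0 := le_antisymm (not_lt.mp hz2) (hY.1 z hz.1)
  obtain ⟨η', hη', hηG'⟩ := exists_closedBall_disjoint hG' hzG'
  obtain ⟨s, hs, hzs, hrs⟩ := hcov z.1 (η' / 4) (by positivity)
  have hUs : IsOpen (Uo (Q s) (r s) η' (h s)) := Uo_open (hcont s)
  have hVs : IsOpen (Vo (Q s) (r s) η' (h s)) := Vo_open (hcont s)
  refine ⟨Uo (Q s) (r s) η' (h s), Vo (Q s) (r s) η' (h s), hUs, hVs, ?_, ?_, ?_, ?_⟩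
  · ext w
    simp only [mem_inter_iff, mem_empty_iff_false, iff_false, not_and]
    rintro ⟨hw1, hw2⟩ -
    exact UoVo_disj (hrpos s) (hpos s) (hneg s) w hw1 hw2
  · refine ⟨?_, Or.inl hzs⟩
    show z.2 < η'
    rw [hz0]; exact hη'
  · rintro w ⟨hwG, hwZ⟩
    have h1 := hηG' w hwG
    rcases lt_max_iff.mp h1 with h2 | h2
    · right; left
      show 2 * r s < dist w.1 (Q s)
      have h3 := dist_triangle_right w.1 z.1 (Q s)
      have h4 := hrpos s
      linarith
    · left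
      show η' < w.2
      rw [hz0, Real.dist_eq, sub_zero, abs_of_nonneg (hY.1 w hwZ.1)] at h2
      exact h2
  -- the second partition
  intro w hw G'' hG'' hwG''
  have hCs : IsClosed (Uo (Q s) (r s) η' (h s) ∪ Vo (Q s) (r s) η' (h s))ᶜ :=
    (hUs.union hVs).isClosed_compl
  by_cases hw2 : 0 < w.2
  · rw [sdiff_eq, sdiff_eq, inter_assoc]
    exact step_gen hY (hC0.inter hCs) hw2 hG'' hwG'' 0
  have hw0 : w.2 = 0 := le_antisymm (not_lt.mp hw2) (hY.1 w hw.1.1)
  obtain ⟨ζ, hζ, hζG⟩ := exists_closedBall_disjoint hG'' hwG''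
  have hu : ∀ i : Fin (m + 1), ∃ u : ℚ, w.1 i - ζ < wv s u ∧ wv s u < w.1 i := fun i =>
    wv_btwn s (by linarith)
  have hv : ∀ i : Fin (m + 1), ∃ u : ℚ, w.1 i < wv s u ∧ wv s u < w.1 i + ζ := fun i =>
    wv_btwn s (by linarith)
  choose u hu1 hu2 using hu
  choose v hv1 hv2 using hv
  let N : ℕ := ∑ i, ((Encodable.encode s + Encodable.encode (u i)) +
    (Encodable.encode s + Encodable.encode (v i)))
  have hN : ∀ i, (Encodable.encode s + Encodable.encode (u i)) +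
      (Encodable.encode s + Encodable.encode (v i)) ≤ N := fun i =>
    Finset.single_le_sum (f := fun i => (Encodable.encode s + Encodable.encode (u i)) +
      (Encodable.encode s + Encodable.encode (v i))) (fun i _ => Nat.zero_le _)
      (Finset.mem_univ i)
  let t₁ : ℝ := min (min (η / 2) (η' / 2)) (min ζ (1 / (N + 1)))
  have ht₁ : 0 < t₁ := by positivity
  have ht1a : t₁ < η := by
    have : t₁ ≤ η / 2 := (min_le_left _ _).trans (min_le_left _ _)
    linarith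
  have ht1b : t₁ < η' := by
    have : t₁ ≤ η' / 2 := (min_le_left _ _).trans (min_le_right _ _)
    linarith
  have ht1c : t₁ ≤ ζ := (min_le_right _ _).trans (min_le_left _ _)
  have ht1d : (N + 1 : ℝ) * t₁ ≤ 1 := by
    have h1 : t₁ ≤ 1 / (N + 1) := (min_le_right _ _).trans (min_le_right _ _)
    have h2 : (0 : ℝ) < N + 1 := by positivity
    rw [le_div_iff₀ h2] at h1
    linarith
  have hUo : IsOpen {y : (Fin (m + 1) → ℝ) × ℝ | (∀ i, wv s (u i) < y.1 i ∧ y.1 i < wv s (v i)) ∧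
      y.2 < t₁} := by
    have e : {y : (Fin (m + 1) → ℝ) × ℝ | (∀ i, wv s (u i) < y.1 i ∧ y.1 i < wv s (v i)) ∧
        y.2 < t₁} = (⋂ i, ({y : (Fin (m + 1) → ℝ) × ℝ | wv s (u i) < y.1 i} ∩
          {y : (Fin (m + 1) → ℝ) × ℝ | y.1 i < wv s (v i)})) ∩
          {y : (Fin (m + 1) → ℝ) × ℝ | y.2 < t₁} := by
      ext y
      simp only [mem_inter_iff, mem_iInter, mem_ofPred_eq]
    rw [e]
    refine IsOpen.inter (isOpen_iInter_of_finite fun i => ?_)
      (isOpen_lt continuous_snd continuous_const)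
    exact (isOpen_lt continuous_const (by fun_prop)).inter
      (isOpen_lt (by fun_prop) continuous_const)
  have hVo : IsOpen {y : (Fin (m + 1) → ℝ) × ℝ | (∃ i, y.1 i < wv s (u i) ∨ wv s (v i) < y.1 i) ∨
      t₁ < y.2} := by
    have e : {y : (Fin (m + 1) → ℝ) × ℝ | (∃ i, y.1 i < wv s (u i) ∨ wv s (v i) < y.1 i) ∨
        t₁ < y.2} = (⋃ i, ({y : (Fin (m + 1) → ℝ) × ℝ | y.1 i < wv s (u i)} ∪
          {y : (Fin (m + 1) → ℝ) × ℝ | wv s (v i) < y.1 i})) ∪
          {y : (Fin (m + 1) → ℝ) × ℝ | t₁ < y.2} := by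
      ext y
      simp only [mem_union, mem_iUnion, mem_ofPred_eq]
    rw [e]
    refine IsOpen.union (isOpen_iUnion fun i => ?_)
      (isOpen_lt continuous_const continuous_snd)
    exact (isOpen_lt (by fun_prop) continuous_const).union
      (isOpen_lt continuous_const (by fun_prop))
  refine ⟨_, _, hUo, hVo, ?_, ?_, ?_, ?_⟩
  · ext y
    simp only [mem_inter_iff, mem_empty_iff_false, iff_false, not_and]
    rintro ⟨⟨hy1, hy2⟩, hy3⟩ -
    rcases hy3 with ⟨i, hi | hi⟩ | hy3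
    · exact lt_asymm hi (hy1 i).1
    · exact lt_asymm hi (hy1 i).2
    · exact lt_asymm hy3 hy2
  · refine ⟨fun i => ⟨hu2 i, hv1 i⟩, ?_⟩
    rw [hw0]; exact ht₁
  · rintro y ⟨hyG, hyZ⟩
    have h1 := hζG y hyG
    rcases lt_max_iff.mp h1 with h2 | h2
    · left
      obtain ⟨i, hi⟩ : ∃ i, ζ < dist (y.1 i) (w.1 i) := by
        by_contra hc
        push Not at hc
        have := (dist_pi_le_iff hζ.le).mpr hc
        linarith
      rw [Real.dist_eq] at hi
      refine ⟨i, ?_⟩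
      rcases lt_abs.mp hi with h3 | h3
      · right; linarith [hv2 i]
      · left; linarith [hu1 i]
    · right
      rw [hw0, Real.dist_eq, sub_zero, abs_of_nonneg (hY.1 y hyZ.1.1)] at h2
      linarith
  -- the third partition is compact
  show IsCompact _
  rw [sdiff_eq, sdiff_eq, sdiff_eq, inter_assoc, inter_assoc]
  refine compact_of_good hY (hC0.inter (hCs.inter (hUo.union hVo).isClosed_compl)) ht₁ ?_
  rintro y ⟨hyZ, hy0, hys, hyw⟩
  by_contra hc
  push Not at hc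
  have hypos : 0 < y.2 := lt_of_le_of_ne (hY.1 y hyZ) (Ne.symm hc.1)
  have hylt : y.2 < t₁ := hc.2
  have hz1 : h [] y = 0 := zero_of_notMem hy0 hypos (hylt.trans ht1a)
  have hz2 : h s y = 0 := zero_of_notMem hys hypos (hylt.trans ht1b)
  rw [mem_compl_iff, mem_union, not_or] at hyw
  obtain ⟨hyU, hyV⟩ := hyw
  have hyV1 : ∀ i, wv s (u i) ≤ y.1 i ∧ y.1 i ≤ wv s (v i) := by
    intro i
    constructor
    · by_contra hcc
      exact hyV (Or.inl ⟨i, Or.inl (not_le.mp hcc)⟩)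
    · by_contra hcc
      exact hyV (Or.inl ⟨i, Or.inr (not_le.mp hcc)⟩)
  have hex : ∃ i, y.1 i = wv s (u i) ∨ y.1 i = wv s (v i) := by
    by_contra hcc
    push Not at hcc
    apply hyU
    refine ⟨fun i => ⟨?_, ?_⟩, hylt⟩
    · exact lt_of_le_of_ne (hyV1 i).1 (Ne.symm (hcc i).1)
    · exact lt_of_le_of_ne (hyV1 i).2 (hcc i).2
  obtain ⟨i, hi | hi⟩ := hex
  · refine hwall s hs (u i) i y hypos hi ?_ hz2 hz1
    have e1 : ((Encodable.encode s + Encodable.encode (u i) : ℕ) : ℝ) ≤ (N : ℝ) + 1 := by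
      have : Encodable.encode s + Encodable.encode (u i) ≤ N + 1 := by
        have := hN i
        omega
      exact_mod_cast this
    calc ((Encodable.encode s + Encodable.encode (u i) : ℕ) : ℝ) * y.2
        ≤ ((N : ℝ) + 1) * t₁ := by gcongr
      _ ≤ 1 := ht1d
  · refine hwall s hs (v i) i y hypos hi ?_ hz2 hz1
    have e1 : ((Encodable.encode s + Encodable.encode (v i) : ℕ) : ℝ) ≤ (N : ℝ) + 1 := by
      have : Encodable.encode s + Encodable.encode (v i) ≤ N + 1 := by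
        have := hN i
        omega
      exact_mod_cast this
    calc ((Encodable.encode s + Encodable.encode (v i) : ℕ) : ℝ) * y.2
        ≤ ((N : ℝ) + 1) * t₁ := by gcongr
      _ ≤ 1 := ht1d

end Gen

end Pool.Agent.Y62.CP
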